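import Pool.Agent.MP_4d4b4c_ag.Ix

set_option autoImplicit false

namespace Pool.Agent.MP_4d4b4c_ag

open MvPowerSeries Finset

/-! ### The six components of the associativity equations -/

noncomputable def w1 (G : PS) : PS :=
  (1 + D1 (D1 (D1 G))) * D2 (D2 (D2 G)) - D1 (D1 (D2 G)) * D1 (D2 (D2 G)) - 2 * D1 (D2 (D3 G))
noncomputable def w2 (G : PS) : PS :=
  (1 + D1 (D1 (D1 G))) * D2 (D2 (D3 G)) - D1 (D3 (D3 G)) - D1 (D2 (D2 G)) * D1 (D1 (D3 G))
noncomputable def w3 (G : PS) : PS :=
  D2 (D3 (D3 G)) + D1 (D1 (D2 G)) * D2 (D2 (D3 G)) - D2 (D2 (D2 G)) * D1 (D1 (D3 G))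
noncomputable def w4 (G : PS) : PS :=
  (1 + D1 (D1 (D1 G))) * D2 (D3 (D3 G)) + D1 (D1 (D2 G)) * D1 (D3 (D3 G))
    - 2 * (D1 (D1 (D3 G)) * D1 (D2 (D3 G)))
noncomputable def w5 (G : PS) : PS :=
  D3 (D3 (D3 G)) + D1 (D1 (D2 G)) * D2 (D3 (D3 G)) + D1 (D2 (D2 G)) * D1 (D3 (D3 G))
    - D1 (D2 (D3 G)) * D1 (D2 (D3 G)) - D2 (D2 (D3 G)) * D1 (D1 (D3 G))
noncomputable def w6 (G : PS) : PS :=
  D1 (D2 (D2 G)) * D2 (D3 (D3 G)) + D2 (D2 (D2 G)) * D1 (D3 (D3 G))
    - 2 * (D1 (D2 (D3 G)) * D2 (D2 (D3 G)))

lemma jac4 (G : PS) : w4 G = (1 + D1 (D1 (D1 G))) * w3 G - D1 (D1 (D2 G)) * w2 G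
    + D1 (D1 (D3 G)) * w1 G := by
  simp only [w1, w2, w3, w4]; ring

lemma jac6 (G : PS) : w6 G = D1 (D2 (D2 G)) * w3 G - D2 (D2 (D2 G)) * w2 G
    + D2 (D2 (D3 G)) * w1 G := by
  simp only [w1, w2, w3, w6]; ring

lemma der_two (D : Derivation ℚ PS PS) : D (2 : PS) = 0 := by
  have h := D.map_natCast 2
  exact_mod_cast h

lemma bia1 (G : PS) : D1 (w3 G) - D2 (w2 G) + D3 (w1 G) = 0 := by
  simp only [w1, w2, w3, map_add, map_sub, Derivation.leibniz, smul_eq_mul, D21, D31, D32,
    Derivation.map_one_eq_zero, der_two]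
  ring

lemma bia2 (G : PS) : D1 (w5 G) - D2 (w4 G) + D3 (w2 G) = 0 := by
  simp only [w4, w2, w5, map_add, map_sub, Derivation.leibniz, smul_eq_mul, D21, D31, D32,
    Derivation.map_one_eq_zero, der_two]
  ring

lemma bia3 (G : PS) : D1 (w6 G) - D2 (w5 G) + D3 (w3 G) = 0 := by
  simp only [w6, w3, w5, map_add, map_sub, Derivation.leibniz, smul_eq_mul, D21, D31, D32,
    Derivation.map_one_eq_zero, der_two]
  ring

/-! ### Homogeneity -/

/-- Only monomials `q^d t₂^a t₃^b` with `a + 2 b + k = 4 d` occur. -/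
def Hom (k : ℕ) (f : PS) : Prop := ∀ d a b, co f d a b ≠ 0 → a + 2 * b + k = 4 * d

lemma Hom.add {k : ℕ} {f g : PS} (hf : Hom k f) (hg : Hom k g) : Hom k (f + g) := by
  intro d a b h
  by_cases h1 : co f d a b = 0
  · apply hg; intro h2; apply h; simp [h1, h2]
  · exact hf _ _ _ h1

lemma Hom.sub {k : ℕ} {f g : PS} (hf : Hom k f) (hg : Hom k g) : Hom k (f - g) := by
  intro d a b h
  by_cases h1 : co f d a b = 0
  · apply hg; intro h2; apply h; simp [h1, h2]
  · exact hf _ _ _ h1

lemma Hom.two_mul {k : ℕ} {f : PS} (hf : Hom k f) : Hom k (2 * f) := by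
  intro d a b h
  apply hf; intro h2; apply h
  rw [co_two_mul, h2, mul_zero]

lemma Hom.mul {k l : ℕ} {f g : PS} (hf : Hom k f) (hg : Hom l g) : Hom (k + l) (f * g) := by
  intro d a b h
  rw [co_mul] at h
  obtain ⟨x, hx, h⟩ := Finset.exists_ne_zero_of_sum_ne_zero h
  obtain ⟨y, hy, h⟩ := Finset.exists_ne_zero_of_sum_ne_zero h
  obtain ⟨z, hz, h⟩ := Finset.exists_ne_zero_of_sum_ne_zero h
  rw [HasAntidiagonal.mem_antidiagonal] at hx hy hz
  have h1 := hf _ _ _ (left_ne_zero_of_mul h)
  have h2 := hg _ _ _ (right_ne_zero_of_mul h)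
  omega

lemma Hom.one : Hom 0 1 := by
  intro d a b h
  rw [co_one] at h
  split_ifs at h with h1
  · omega
  · exact absurd rfl h

lemma Hom.d1 {k : ℕ} {f : PS} (hf : Hom k f) : Hom k (D1 f) := by
  intro d a b h
  rw [co_D1] at h
  exact hf _ _ _ (right_ne_zero_of_mul h)

lemma Hom.d2 {k : ℕ} {f : PS} (hf : Hom k f) : Hom (k + 1) (D2 f) := by
  intro d a b h
  rw [co_D2] at h
  have := hf _ _ _ (right_ne_zero_of_mul h)
  omega

lemma Hom.d3 {k : ℕ} {f : PS} (hf : Hom k f) : Hom (k + 2) (D3 f) := by
  intro d a b h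
  rw [co_D3] at h
  have := hf _ _ _ (right_ne_zero_of_mul h)
  omega

lemma Hom.w1 {G : PS} (h : Hom 0 G) : Hom 3 (w1 G) :=
  (((Hom.one.add h.d1.d1.d1).mul h.d2.d2.d2).sub (h.d2.d1.d1.mul h.d2.d2.d1)).sub
    (h.d3.d2.d1).two_mul

lemma Hom.w2 {G : PS} (h : Hom 0 G) : Hom 4 (w2 G) :=
  (((Hom.one.add h.d1.d1.d1).mul h.d3.d2.d2).sub h.d3.d3.d1).sub (h.d2.d2.d1.mul h.d3.d1.d1)

/-- Euler's relation. -/
lemma Hom.euler {k : ℕ} {f : PS} (h : Hom k f) :
    X 1 * D2 f + 2 * (X 2 * D3 f) = 4 * D1 f - (k : PS) * f := by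
  apply co_ext
  intro d a b
  simp only [co_add, co_sub, co_two_mul, co_four_mul, co_natCast_mul, co_D1]
  have e1 : co (X 1 * D2 f) d a b = a * co f d a b := by
    cases a with
    | zero => rw [co_X1_mul_zero]; simp
    | succ a => rw [co_X1_mul_succ, co_D2]; push_cast; ring
  have e2 : co (X 2 * D3 f) d a b = b * co f d a b := by
    cases b with
    | zero => rw [co_X2_mul_zero]; simp
    | succ b => rw [co_X2_mul_succ, co_D3]; push_cast; ring
  rw [e1, e2]
  by_cases h0 : co f d a b = 0
  · simp [h0]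
  · have := h d a b h0
    have h' : (a : ℚ) + 2 * b + k = 4 * d := by exact_mod_cast this
    linear_combination (co f d a b) * h'

/-! ### Vanishing below a given `q`-degree -/

/-- `f` has no monomials of `q`-degree `< n`. -/
def Van (n : ℕ) (f : PS) : Prop := ∀ d a b, d < n → co f d a b = 0

lemma Van.d1 {n : ℕ} {f : PS} (h : Van n f) : Van n (D1 f) := by
  intro d a b hd; rw [co_D1, h _ _ _ hd, mul_zero]
lemma Van.d2 {n : ℕ} {f : PS} (h : Van n f) : Van n (D2 f) := by
  intro d a b hd; rw [co_D2, h _ _ _ hd, mul_zero]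
lemma Van.d3 {n : ℕ} {f : PS} (h : Van n f) : Van n (D3 f) := by
  intro d a b hd; rw [co_D3, h _ _ _ hd, mul_zero]

lemma Van.co_mul {n : ℕ} {f g : PS} (hf : Van 1 f) (hg : Van n g) (d a b : ℕ) (hd : d ≤ n) :
    co (f * g) d a b = 0 := by
  rw [Pool.Agent.MP_4d4b4c_ag.co_mul]
  apply Finset.sum_eq_zero
  intro x hx
  apply Finset.sum_eq_zero
  intro y _
  apply Finset.sum_eq_zero
  intro z _
  rw [HasAntidiagonal.mem_antidiagonal] at hx
  rcases Nat.eq_zero_or_pos x.1 with h | h
  · rw [hf _ _ _ (by omega), zero_mul]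
  · rw [hg _ _ _ (by omega), mul_zero]

/-- The contraction of the first two equations with the Euler field. -/
lemma contract {G : PS} (h : Hom 0 G) : X 1 * w1 G + 2 * (X 2 * w2 G) =
    -2 * (X 1 * D1 (D2 (D3 G)) + X 2 * D1 (D3 (D3 G)) + D1 (D1 (D1 G)) * D2 (D2 G)
      + D2 (D2 G) - 2 * D1 (D2 (D2 G))) := by
  have e1 := h.d2.d2.euler
  have e2 := h.d1.d1.euler
  simp only [D21, D31, D32] at e1 e2
  push_cast at e1 e2
  simp only [w1, w2]
  linear_combination (1 + D1 (D1 (D1 G))) * e1 - D1 (D2 (D2 G)) * e2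

/-- All six equations follow from the contracted equation and from the vanishing of the fifth
one on `t₂ = 0`. -/
theorem all_wdvv {G : PS} (hG : Hom 0 G) (hV : Van 1 G)
    (hc : X 1 * w1 G + 2 * (X 2 * w2 G) = 0) (h5 : ∀ d b, co (w5 G) d 0 b = 0) :
    w1 G = 0 ∧ w2 G = 0 ∧ w3 G = 0 ∧ w4 G = 0 ∧ w5 G = 0 ∧ w6 G = 0 := by
  have key : ∀ n, (∀ a b, co (w1 G) n a b = 0) ∧ (∀ a b, co (w2 G) n a b = 0) ∧
      (∀ a b, co (w3 G) n a b = 0) ∧ (∀ a b, co (w4 G) n a b = 0) ∧
      (∀ a b, co (w5 G) n a b = 0) ∧ (∀ a b, co (w6 G) n a b = 0) := by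
    intro n
    induction n using Nat.strong_induction_on with
    | _ n ih =>
      have v1 : Van n (w1 G) := fun d a b hd => (ih d hd).1 a b
      have v2 : Van n (w2 G) := fun d a b hd => (ih d hd).2.1 a b
      have v3 : Van n (w3 G) := fun d a b hd => (ih d hd).2.2.1 a b
      have j4 : ∀ a b, co (w4 G) n a b = co (w3 G) n a b := by
        intro a b
        rw [jac4 G, add_mul, one_mul, co_add, co_sub, co_add,
          hV.d1.d1.d1.co_mul v3 n a b le_rfl, hV.d2.d1.d1.co_mul v2 n a b le_rfl,
          hV.d3.d1.d1.co_mul v1 n a b le_rfl]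
        ring
      have j6 : ∀ a b, co (w6 G) n a b = 0 := by
        intro a b
        rw [jac6 G, co_add, co_sub,
          hV.d2.d2.d1.co_mul v3 n a b le_rfl, hV.d2.d2.d2.co_mul v2 n a b le_rfl,
          hV.d3.d2.d2.co_mul v1 n a b le_rfl]
        ring
      rcases Nat.eq_zero_or_pos n with hn | hn
      · subst hn
        have z1 : ∀ a b, co (w1 G) 0 a b = 0 := by
          intro a b
          rw [w1, add_mul, one_mul, co_sub, co_sub, co_add, co_two_mul,
            hV.d1.d1.d1.co_mul hV.d2.d2.d2 0 a b (by omega),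
            hV.d2.d1.d1.co_mul hV.d2.d2.d1 0 a b (by omega),
            hV.d2.d2.d2 0 a b (by omega), hV.d3.d2.d1 0 a b (by omega)]
          ring
        have z2 : ∀ a b, co (w2 G) 0 a b = 0 := by
          intro a b
          rw [w2, add_mul, one_mul, co_sub, co_sub, co_add,
            hV.d1.d1.d1.co_mul hV.d3.d2.d2 0 a b (by omega),
            hV.d2.d2.d1.co_mul hV.d3.d1.d1 0 a b (by omega),
            hV.d3.d2.d2 0 a b (by omega), hV.d3.d3.d1 0 a b (by omega)]
          ring
        have z3 : ∀ a b, co (w3 G) 0 a b = 0 := by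
          intro a b
          rw [w3, co_sub, co_add,
            hV.d2.d1.d1.co_mul hV.d3.d2.d2 0 a b (by omega),
            hV.d2.d2.d2.co_mul hV.d3.d1.d1 0 a b (by omega),
            hV.d3.d3.d2 0 a b (by omega)]
          ring
        have z5 : ∀ a b, co (w5 G) 0 a b = 0 := by
          intro a b
          rw [w5, co_sub, co_sub, co_add, co_add,
            hV.d2.d1.d1.co_mul hV.d3.d3.d2 0 a b (by omega),
            hV.d2.d2.d1.co_mul hV.d3.d3.d1 0 a b (by omega),
            hV.d3.d2.d1.co_mul hV.d3.d2.d1 0 a b (by omega),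
            hV.d3.d2.d2.co_mul hV.d3.d1.d1 0 a b (by omega),
            hV.d3.d3.d3 0 a b (by omega)]
          ring
        exact ⟨z1, z2, z3, fun a b => by rw [j4, z3], z5, j6⟩
      · have hn' : (n : ℚ) ≠ 0 := by positivity
        have h4n : (4 * n - 2 : ℚ) ≠ 0 := by
          have : (1 : ℚ) ≤ n := by exact_mod_cast hn
          intro h; linarith
        -- coefficient forms
        have b1 : ∀ a b, n * co (w3 G) n a b = (a + 1) * co (w2 G) n (a + 1) b
            - (b + 1) * co (w1 G) n a (b + 1) := by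
          intro a b
          have := congrArg (fun f => co f n a b) (bia1 G)
          simp only [co_add, co_sub, co_D1, co_D2, co_D3, co_zero] at this
          linarith
        have b2 : ∀ a b, n * co (w5 G) n a b = (a + 1) * co (w3 G) n (a + 1) b
            - (b + 1) * co (w2 G) n a (b + 1) := by
          intro a b
          have := congrArg (fun f => co f n a b) (bia2 G)
          simp only [co_add, co_sub, co_D1, co_D2, co_D3, co_zero, j4] at this
          linarith
        have b3 : ∀ a b, (a + 1) * co (w5 G) n (a + 1) b = (b + 1) * co (w3 G) n a (b + 1) := by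
          intro a b
          have := congrArg (fun f => co f n a b) (bia3 G)
          simp only [co_add, co_sub, co_D1, co_D2, co_D3, co_zero, j6] at this
          linarith
        have c1 : ∀ a b, co (w1 G) n a (b + 1) = - 2 * co (w2 G) n (a + 1) b := by
          intro a b
          have := congrArg (fun f => co f n (a + 1) (b + 1)) hc
          simp only [co_add, co_two_mul, co_X1_mul_succ, co_X2_mul_succ, co_zero] at this
          linarith
        have c2 : ∀ b, co (w2 G) n 0 b = 0 := by
          intro b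
          have := congrArg (fun f => co f n 0 (b + 1)) hc
          simp only [co_add, co_two_mul, co_X1_mul_zero, co_X2_mul_succ, co_zero] at this
          linarith
        have c3 : ∀ a, co (w1 G) n a 0 = 0 := by
          intro a
          have := congrArg (fun f => co f n (a + 1) 0) hc
          simp only [co_add, co_two_mul, co_X1_mul_succ, co_X2_mul_zero, co_zero] at this
          linarith
        have s3 : ∀ a b, n * co (w3 G) n a b = (4 * n - 2) * co (w2 G) n (a + 1) b := by
          intro a b
          rw [b1, c1]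
          by_cases h0 : co (w2 G) n (a + 1) b = 0
          · rw [h0]; ring
          · have := hG.w2 n (a + 1) b h0
            have h' : ((a : ℚ) + 1) + 2 * b + 4 = 4 * n := by exact_mod_cast this
            linear_combination (co (w2 G) n (a + 1) b) * h'
        have S0 : ∀ a, ∀ b, co (w2 G) n (a + 1) b = 0 := by
          intro a
          induction a using Nat.strong_induction_on with
          | _ a iha =>
            intro b
            match a, iha with
            | 0, _ =>
              by_contra h0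
              have := hG.w2 n (0 + 1) b h0
              omega
            | 1, _ =>
              have e := b2 0 b
              rw [h5, c2] at e
              have e' := s3 1 b
              have e3 : co (w3 G) n 1 b = 0 := by
                have : ((0 : ℕ) : ℚ) + 1 ≠ 0 := by norm_num
                simp only [mul_zero, sub_zero] at e
                have := e.symm
                simpa using this
              rw [e3, mul_zero] at e'
              have := (mul_eq_zero.mp e'.symm).resolve_left h4n
              exact this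
            | a + 2, iha =>
              have hS : co (w2 G) n (a + 1) (b + 1) = 0 := iha a (by omega) (b + 1)
              have e3 := b3 a b
              have e2 := b2 (a + 1) b
              have e4 := s3 a (b + 1)
              rw [hS, mul_zero] at e4
              have e5 : co (w3 G) n a (b + 1) = 0 := (mul_eq_zero.mp e4).resolve_left hn'
              rw [e5, mul_zero] at e3
              have ha : ((a : ℚ) + 1) ≠ 0 := by positivity
              have e6 := (mul_eq_zero.mp e3).resolve_left ha
              rw [e6, hS, mul_zero, mul_zero, sub_zero] at e2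
              have ha2 : (((a + 1 : ℕ) : ℚ) + 1) ≠ 0 := by positivity
              have e7 := (mul_eq_zero.mp e2.symm).resolve_left ha2
              have e8 := s3 (a + 2) b
              rw [e7, mul_zero] at e8
              exact (mul_eq_zero.mp e8.symm).resolve_left h4n
        have z2 : ∀ a b, co (w2 G) n a b = 0 := by
          intro a b
          cases a with
          | zero => exact c2 b
          | succ a => exact S0 a b
        have z1 : ∀ a b, co (w1 G) n a b = 0 := by
          intro a b
          cases b with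
          | zero => exact c3 a
          | succ b => rw [c1, z2]; ring
        have z3 : ∀ a b, co (w3 G) n a b = 0 := by
          intro a b
          have := s3 a b
          rw [z2, mul_zero] at this
          exact (mul_eq_zero.mp this).resolve_left hn'
        have z5 : ∀ a b, co (w5 G) n a b = 0 := by
          intro a b
          have := b2 a b
          rw [z2, z3, mul_zero, mul_zero, sub_zero] at this
          exact (mul_eq_zero.mp this).resolve_left hn'
        exact ⟨z1, z2, z3, fun a b => by rw [j4, z3], z5, j6⟩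
  refine ⟨?_, ?_, ?_, ?_, ?_, ?_⟩ <;> apply co_ext <;> intro d a b <;> rw [co_zero]
  · exact (key d).1 a b
  · exact (key d).2.1 a b
  · exact (key d).2.2.1 a b
  · exact (key d).2.2.2.1 a b
  · exact (key d).2.2.2.2.1 a b
  · exact (key d).2.2.2.2.2 a b

end Pool.Agent.MP_4d4b4c_ag
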