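import Pool.Agent.MP_4d4b4c_ag.Link

set_option autoImplicit false

namespace Pool.Agent.MP_4d4b4c_ag

open Finset

section
variable {n : ℕ → ℕ → ℚ} (h : Hub n)
include h

lemma Hub.term_nonneg (x y : ℕ × ℕ) :
    0 ≤ (x.1 : ℚ) ^ 3 * n x.1 y.1 * (2 * y.2 * (2 * y.2 - 1) * n x.2 y.2) := by
  have hy : (0 : ℚ) ≤ 2 * y.2 * (2 * y.2 - 1) := by
    rcases Nat.eq_zero_or_pos y.2 with hy | hy
    · rw [hy]; simp
    · have : (1 : ℚ) ≤ y.2 := by exact_mod_cast hy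
      have : (0 : ℚ) ≤ 2 * y.2 - 1 := by linarith
      positivity
  have := h.nonneg x.1 y.1
  have := h.nonneg x.2 y.2
  positivity

/-- Each single product bounds the number from below. -/
lemma Hub.lower (d1 d2 p1 p2 : ℕ) (hd : 1 ≤ d1 + d2) (hp2 : 1 ≤ p2)
    (hp : p1 + p2 ≤ 2 * (d1 + d2)) :
    (d1 : ℚ) ^ 3 * n d1 p1 * (2 * p2 * (2 * p2 - 1) * n d2 p2) ≤
      (2 * (d1 + d2 : ℕ) - 1) * (2 * (p1 + p2 : ℕ)) * (2 * (p1 + p2 : ℕ) - 1)
        * n (d1 + d2) (p1 + p2) := by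
  obtain ⟨q, hq⟩ : ∃ q, p1 + p2 = q + 1 := ⟨p1 + p2 - 1, by omega⟩
  have e := h.rec' (d1 + d2) q (by omega)
  have h1 : (d1 : ℚ) ^ 3 * n d1 p1 * (2 * p2 * (2 * p2 - 1) * n d2 p2) ≤
      ∑ x ∈ antidiagonal (d1 + d2), ∑ y ∈ antidiagonal (q + 1),
        (x.1 : ℚ) ^ 3 * n x.1 y.1 * (2 * y.2 * (2 * y.2 - 1) * n x.2 y.2) := by
    have hx : (d1, d2) ∈ antidiagonal (d1 + d2) := by
      rw [HasAntidiagonal.mem_antidiagonal]
    have hy : (p1, p2) ∈ antidiagonal (q + 1) := by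
      rw [HasAntidiagonal.mem_antidiagonal]; exact hq
    refine le_trans ?_ (Finset.single_le_sum (f := fun x : ℕ × ℕ =>
      ∑ y ∈ antidiagonal (q + 1),
        (x.1 : ℚ) ^ 3 * n x.1 y.1 * (2 * y.2 * (2 * y.2 - 1) * n x.2 y.2))
      (fun x _ => Finset.sum_nonneg (fun y _ => h.term_nonneg x y)) hx)
    exact Finset.single_le_sum (f := fun y : ℕ × ℕ =>
        (d1 : ℚ) ^ 3 * n d1 y.1 * (2 * y.2 * (2 * y.2 - 1) * n d2 y.2))
      (fun y _ => h.term_nonneg (d1, d2) y) hy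
  have hd' : (1 : ℚ) ≤ (d1 + d2 : ℕ) := by exact_mod_cast hd
  have hq' : (q : ℚ) + 1 ≤ 2 * (d1 + d2 : ℕ) := by
    have : q + 1 ≤ 2 * (d1 + d2) := by omega
    exact_mod_cast this
  have h2 : (0 : ℚ) ≤ (d1 + d2 : ℕ) * (2 * (d1 + d2 : ℕ) - q) * (2 * (d1 + d2 : ℕ) + q - 1)
      * n (d1 + d2) q := by
    have a1 : (0 : ℚ) ≤ 2 * (d1 + d2 : ℕ) - q := by linarith
    have a2 : (0 : ℚ) ≤ 2 * (d1 + d2 : ℕ) + q - 1 := by
      have : (0 : ℚ) ≤ q := by positivity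
      linarith
    have := h.nonneg (d1 + d2) q
    positivity
  rw [hq]
  have e3 : (2 * ((d1 + d2 : ℕ) : ℚ) - 1) * (2 * ((q + 1 : ℕ) : ℚ)) * (2 * ((q + 1 : ℕ) : ℚ) - 1)
        * n (d1 + d2) (q + 1) =
        (2 * ((d1 + d2 : ℕ) : ℚ) - 1) * (2 * q + 2) * (2 * q + 1) * n (d1 + d2) (q + 1) := by
    push_cast; ring
  rw [e3, e]
  linarith

theorem Hub.pos (d p : ℕ) (hd : 1 ≤ d) (hp : 1 ≤ p) (hpd : p ≤ 2 * d) : 0 < n d p := by
  induction d using Nat.strong_induction_on generalizing p with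
  | _ d ih =>
    have hd' : (1 : ℚ) ≤ d := by exact_mod_cast hd
    have fin : ∀ c : ℚ, 0 < c → c ≤ (2 * (d : ℚ) - 1) * (2 * p) * (2 * p - 1) * n d p →
        0 < n d p := by
      intro c hc hle
      have hp' : (1 : ℚ) ≤ p := by exact_mod_cast hp
      by_contra hcon
      push Not at hcon
      have a1 : (0 : ℚ) < 2 * d - 1 := by linarith
      have a2 : (0 : ℚ) < 2 * p - 1 := by linarith
      have a3 : (0 : ℚ) ≤ (2 * (d : ℚ) - 1) * (2 * p) * (2 * p - 1) := by positivity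
      have := mul_nonpos_of_nonneg_of_nonpos a3 hcon
      linarith
    have l11 : 0 < n 1 1 := by
      have e := h.rec' 1 0 (by norm_num)
      have hs : 0 ≤ ∑ x ∈ antidiagonal (1 : ℕ), ∑ y ∈ antidiagonal (0 + 1 : ℕ),
        (x.1 : ℚ) ^ 3 * n x.1 y.1 * (2 * y.2 * (2 * y.2 - 1) * n x.2 y.2) :=
        Finset.sum_nonneg (fun x _ => Finset.sum_nonneg (fun y _ => h.term_nonneg x y))
      rw [h.line] at e
      norm_num at e hs
      linarith
    have l12 : 0 < n 1 2 := by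
      have e := h.rec' 1 1 (by norm_num)
      have hs : 0 ≤ ∑ x ∈ antidiagonal (1 : ℕ), ∑ y ∈ antidiagonal (1 + 1 : ℕ),
        (x.1 : ℚ) ^ 3 * n x.1 y.1 * (2 * y.2 * (2 * y.2 - 1) * n x.2 y.2) :=
        Finset.sum_nonneg (fun x _ => Finset.sum_nonneg (fun y _ => h.term_nonneg x y))
      norm_num at e hs
      linarith
    by_cases h1 : d = 1
    · subst h1
      have : p = 1 ∨ p = 2 := by omega
      rcases this with rfl | rfl
      · exact l11
      · exact l12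
    · by_cases c1 : p ≤ 2 * (d - 1)
      · have i := ih (d - 1) (by omega) p (by omega) hp c1
        have l := h.lower 1 (d - 1) 0 p (by omega) hp (by omega)
        have e1 : 1 + (d - 1) = d := by omega
        rw [e1, zero_add, h.line] at l
        refine fin _ ?_ l
        have hp' : (1 : ℚ) ≤ p := by exact_mod_cast hp
        have a2 : (0 : ℚ) < 2 * p - 1 := by linarith
        positivity
      · by_cases c2 : p = 2 * d - 1
        · have i := ih (d - 1) (by omega) (2 * (d - 1)) (by omega) (by omega) le_rfl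
          have l := h.lower 1 (d - 1) 1 (2 * (d - 1)) (by omega) (by omega) (by omega)
          have e1 : 1 + (d - 1) = d := by omega
          have e2 : 1 + 2 * (d - 1) = p := by omega
          rw [e1, e2] at l
          refine fin _ ?_ l
          have hp' : (1 : ℚ) ≤ (2 * (d - 1) : ℕ) := by
            have : 1 ≤ 2 * (d - 1) := by omega
            exact_mod_cast this
          have a2 : (0 : ℚ) < 2 * (2 * (d - 1) : ℕ) - 1 := by linarith
          positivity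
        · have i := ih (d - 1) (by omega) (2 * (d - 1)) (by omega) (by omega) le_rfl
          have l := h.lower 1 (d - 1) 2 (2 * (d - 1)) (by omega) (by omega) (by omega)
          have e1 : 1 + (d - 1) = d := by omega
          have e2 : 2 + 2 * (d - 1) = p := by omega
          rw [e1, e2] at l
          refine fin _ ?_ l
          have hp' : (1 : ℚ) ≤ (2 * (d - 1) : ℕ) := by
            have : 1 ≤ 2 * (d - 1) := by omega
            exact_mod_cast this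
          have a2 : (0 : ℚ) < 2 * (2 * (d - 1) : ℕ) - 1 := by linarith
          positivity

/-- Supermultiplicativity along a ray, first order. -/
lemma Hub.super_aux (α β : ℕ) (hα : 1 ≤ α) (hβ : 1 ≤ β) (hβα : β ≤ 2 * α) (k1 k2 : ℕ)
    (hk2 : 1 ≤ k2) (hk : k2 ≤ k1) :
    n (α * k1) (β * k1) * n (α * k2) (β * k2) ≤ 32 * n (α * (k1 + k2)) (β * (k1 + k2)) := by
  have hle : β * k1 + β * k2 ≤ 2 * (α * k1 + α * k2) := by nlinarith
  have l := h.lower (α * k1) (α * k2) (β * k1) (β * k2)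
    (by nlinarith [Nat.mul_le_mul hα hk2]) (by nlinarith [Nat.mul_le_mul hβ hk2]) hle
  rw [← mul_add, ← mul_add] at l
  set u1 := n (α * k1) (β * k1)
  set u2 := n (α * k2) (β * k2)
  set u := n (α * (k1 + k2)) (β * (k1 + k2))
  have hu1 : 0 ≤ u1 := h.nonneg _ _
  have hu2 : 0 ≤ u2 := h.nonneg _ _
  have hu : 0 ≤ u := h.nonneg _ _
  push_cast at l
  have a1 : (1 : ℚ) ≤ α := by exact_mod_cast hα
  have b1 : (1 : ℚ) ≤ β := by exact_mod_cast hβ
  have c2 : (1 : ℚ) ≤ k2 := by exact_mod_cast hk2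
  have c1 : (k2 : ℚ) ≤ k1 := by exact_mod_cast hk
  -- lower bound for the left-hand side
  have L1 : (α : ℚ) ^ 3 * k1 ^ 3 * (2 * β ^ 2) * (u1 * u2) ≤
      (↑α * ↑k1) ^ 3 * u1 * (2 * (↑β * ↑k2) * (2 * (↑β * ↑k2) - 1) * u2) := by
    have e : (β : ℚ) ^ 2 * 2 ≤ 2 * (β * k2) * (2 * (β * k2) - 1) := by
      have e1 : (β : ℚ) ≤ β * k2 := by nlinarith
      have e2 : (β : ℚ) ≤ 2 * (β * k2) - 1 := by linarith
      nlinarith
    have e3 : 0 ≤ (α : ℚ) ^ 3 * k1 ^ 3 * (u1 * u2) := by positivity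
    nlinarith [mul_le_mul_of_nonneg_left e e3]
  have R1 : (2 * ((α : ℚ) * (k1 + k2)) - 1) * (2 * (β * (k1 + k2))) * (2 * (β * (k1 + k2)) - 1) * u
      ≤ (α * β ^ 2 * k1 ^ 3 * 64) * u := by
    apply mul_le_mul_of_nonneg_right _ hu
    have f1 : (0 : ℚ) ≤ 2 * ((α : ℚ) * (k1 + k2)) - 1 := by nlinarith
    have f2 : 2 * ((α : ℚ) * (k1 + k2)) - 1 ≤ 4 * α * k1 := by nlinarith
    have f3 : (0 : ℚ) ≤ 2 * ((β : ℚ) * (k1 + k2)) - 1 := by nlinarith
    have f4 : 2 * ((β : ℚ) * (k1 + k2)) - 1 ≤ 4 * β * k1 := by nlinarith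
    have f5 : 2 * ((β : ℚ) * (k1 + k2)) ≤ 4 * β * k1 := by nlinarith
    calc (2 * ((α : ℚ) * (k1 + k2)) - 1) * (2 * (β * (k1 + k2))) * (2 * (β * (k1 + k2)) - 1)
        ≤ (4 * α * k1) * (4 * β * k1) * (4 * β * k1) := by
          apply mul_le_mul (mul_le_mul f2 f5 (by positivity) (by positivity)) f4 f3
            (by positivity)
      _ = α * β ^ 2 * k1 ^ 3 * 64 := by ring
  have M : (α : ℚ) ^ 3 * k1 ^ 3 * (2 * β ^ 2) * (u1 * u2) ≤ (α * β ^ 2 * k1 ^ 3 * 64) * u :=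
    L1.trans (l.trans R1)
  have M2 : (α * β ^ 2 * k1 ^ 3 * 2 : ℚ) * (α ^ 2 * (u1 * u2)) ≤
      (α * β ^ 2 * k1 ^ 3 * 2 : ℚ) * (32 * u) := by nlinarith
  have k1pos : (0 : ℚ) < k1 := by linarith
  have M3 : (α : ℚ) ^ 2 * (u1 * u2) ≤ 32 * u := le_of_mul_le_mul_left M2 (by positivity)
  have M4 : (1 : ℚ) ≤ α ^ 2 := by nlinarith
  have M5 : 0 ≤ u1 * u2 := by positivity
  nlinarith

lemma Hub.super (α β : ℕ) (hα : 1 ≤ α) (hβ : 1 ≤ β) (hβα : β ≤ 2 * α) (k1 k2 : ℕ)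
    (hk1 : 1 ≤ k1) (hk2 : 1 ≤ k2) :
    n (α * k1) (β * k1) * n (α * k2) (β * k2) ≤ 32 * n (α * (k1 + k2)) (β * (k1 + k2)) := by
  rcases le_total k2 k1 with hk | hk
  · exact h.super_aux α β hα hβ hβα k1 k2 hk2 hk
  · rw [mul_comm (n _ _), add_comm]
    exact h.super_aux α β hα hβ hβα k2 k1 hk1 hk

end

end Pool.Agent.MP_4d4b4c_ag
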