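import Mathlib

set_option autoImplicit false

namespace Pool.Agent.MP_4d4b4c_ag

/-- All instances of the exchange relation follow from six of them. -/
lemma exchange {α : Type*} (P : Fin 4 → Fin 4 → Fin 4 → Fin 4 → α)
    (s1 : ∀ i j k l, P i j k l = P j i k l) (s2 : ∀ i j k l, P i j k l = P i j l k)
    (s3 : ∀ i j k l, P i j k l = P k l i j)
    (z : ∀ j k l, P 0 j k l = P 0 k j l)
    (a1 : P 1 1 2 2 = P 1 2 1 2) (a2 : P 1 1 2 3 = P 1 2 1 3) (a3 : P 2 1 2 3 = P 2 2 1 3)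
    (a4 : P 1 1 3 3 = P 1 3 1 3) (a5 : P 2 1 3 3 = P 2 3 1 3) (a6 : P 2 2 3 3 = P 2 3 2 3) :
    ∀ i j k l, P i j k l = P i k j l := by
  intro i j k l
  fin_cases i <;> fin_cases j <;> fin_cases k <;> fin_cases l <;>
    first
      | rfl
      | (simp only [Fin.zero_eta, Fin.mk_one, Fin.reduceFinMk]; grind)

end Pool.Agent.MP_4d4b4c_ag
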