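import Mathlib

/-!
# Genus-zero Gromov-Witten numbers of `ℙ³`

Definitions used in the statement about the numbers `N_{0,d}(p)` of rational curves of degree `d`
in `ℙ³` through `2d - p` general points and meeting `2p` general lines.
-/

set_option autoImplicit false

namespace Pool.Agent.MP_4d4b4c_ag

open MvPowerSeries
open scoped Nat

/-- The ring of formal power series in three variables: `X 0 = q = exp(t₁)`, `X 1 = t₂`,
`X 2 = t₃`, where `t₁, t₂, t₃` are dual to the classes `H, H², H³` of `ℙ³`. -/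
abbrev PS : Type := MvPowerSeries (Fin 3) ℚ

/-- The quantum part of the genus-zero potential of `ℙ³` attached to numbers `N d p`
(`d` the degree, `2 p` the number of lines, `2 d - p` the number of points):
`Γ = ∑ N d p · q^d · t₂^(2p)/(2p)! · t₃^(2d-p)/(2d-p)!`.
The monomial `q^d t₂^a t₃^b` occurs only if `a + 2 b = 4 d`, and then `a = 2 p`, `b = 2 d - p`
with `p = a / 2`. -/
noncomputable def potential (N : ℕ → ℕ → ℚ) : PS := fun m =>
  if m 1 + 2 * m 2 = 4 * m 0 then N (m 0) (m 1 / 2) / ((m 1)! * (m 2)!) else 0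

/-- The derivative `∂/∂tᵢ` on functions of `q = exp(t₁), t₂, t₃`; the quantum part of the
potential does not depend on `t₀`. So `∂/∂t₁ = q ∂/∂q`. -/
noncomputable def dT (i : Fin 4) (f : PS) : PS :=
  ![0, X 0 * pderiv ℚ 0 f, pderiv ℚ 1 f, pderiv ℚ 2 f] i

/-- Third derivatives `F_{ijk}` of the full genus-zero potential of `ℙ³`: the classical
triple intersection number `∫ Hⁱ Hʲ Hᵏ` (which is `1` if `i + j + k = 3` and `0` otherwise)
plus `∂ᵢ ∂ⱼ ∂ₖ Γ`. -/
noncomputable def F3 (N : ℕ → ℕ → ℚ) (i j k : Fin 4) : PS :=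
  (if (i : ℕ) + j + k = 3 then 1 else 0) + dT i (dT j (dT k (potential N)))

/-- `N` is the family of genus-zero Gromov-Witten numbers of `ℙ³`: `N 1 0 = 1` (one line through
two points), and the numbers satisfy all the WDVV equations
`∑ₑ F_{ije} F_{(3-e)kl} = ∑ₑ F_{ike} F_{(3-e)jl}`, that is, the quantum product
`Tᵢ ∘ Tⱼ = ∑ₑ F_{ije} T_{3-e}` is associative. Outside the range `d ≥ 1`, `p ≤ 2 d` the values
are `0` by convention. -/
structure IsCurveCount (N : ℕ → ℕ → ℚ) : Prop where
  line : N 1 0 = 1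
  zero_deg : ∀ p, N 0 p = 0
  range : ∀ d p, 2 * d < p → N d p = 0
  wdvv : ∀ i j k l : Fin 4,
    ∑ e : Fin 4, F3 N i j e * F3 N e.rev k l = ∑ e : Fin 4, F3 N i k e * F3 N e.rev j l

end Pool.Agent.MP_4d4b4c_ag
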