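import Pool.Agent.MP_4d4b4c_ag.Hub

set_option autoImplicit false

namespace Pool.Agent.MP_4d4b4c_ag

open MvPowerSeries Finset

/-- One row of the recursion. -/
def row (T : ℕ → ℕ → ℚ) (d : ℕ) : ℕ → ℚ
  | 0 => if d = 1 then 1 / 2 else
      (∑ x ∈ antidiagonal d, 4 * (x.2 : ℚ) ^ 2 * (x.1 - x.2) * T x.1 1 * T x.2 0) /
        (2 * d * (2 * d - 1) * (2 * d - 2))
  | p + 1 => if p + 1 ≤ 2 * d then
      (d * (2 * d - p) * (2 * d + p - 1) * row T d p +
        ∑ x ∈ antidiagonal d, ∑ y ∈ antidiagonal (p + 1),
          (x.1 : ℚ) ^ 3 * T x.1 y.1 * (2 * y.2 * (2 * y.2 - 1) * T x.2 y.2)) /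
        ((2 * d - 1) * (2 * p + 2) * (2 * p + 1)) else 0

/-- The table of numbers of degree at most `D`. -/
def tab : ℕ → ℕ → ℕ → ℚ
  | 0 => fun _ _ => 0
  | D + 1 => fun d p => if d = D + 1 then row (tab D) (D + 1) p else tab D d p

/-- The numbers `N d p / ((2 p)! (2 d - p)!)`. -/
def nums (d p : ℕ) : ℚ := tab d d p

lemma tab_succ (D d p : ℕ) :
    tab (D + 1) d p = if d = D + 1 then row (tab D) (D + 1) p else tab D d p := rfl

lemma tab_eq (D d p : ℕ) (h : d ≤ D) : tab D d p = nums d p := by
  induction D with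
  | zero => have : d = 0 := by omega
            subst this; rfl
  | succ D ih =>
    by_cases hd : d = D + 1
    · subst hd; rfl
    · rw [tab_succ, if_neg hd]; exact ih (by omega)

lemma tab_big (D d p : ℕ) (h : D < d) : tab D d p = 0 := by
  induction D with
  | zero => rfl
  | succ D ih => rw [tab_succ, if_neg (by omega)]; exact ih (by omega)

lemma nums_zero (p : ℕ) : nums 0 p = 0 := rfl

lemma nums_row (d p : ℕ) (h : 1 ≤ d) : nums d p = row (tab (d - 1)) d p := by
  obtain ⟨e, rfl⟩ : ∃ e, d = e + 1 := ⟨d - 1, by omega⟩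
  rw [nums, tab_succ, if_pos rfl]; rfl

lemma tab_mul (d : ℕ) (hd : 1 ≤ d) (x : ℕ × ℕ) (hx : x ∈ antidiagonal d) (p q : ℕ) :
    tab (d - 1) x.1 p * tab (d - 1) x.2 q = nums x.1 p * nums x.2 q := by
  rw [HasAntidiagonal.mem_antidiagonal] at hx
  by_cases h1 : x.1 ≤ d - 1
  · by_cases h2 : x.2 ≤ d - 1
    · rw [tab_eq _ _ _ h1, tab_eq _ _ _ h2]
    · have : x.1 = 0 := by omega
      rw [this, tab_eq _ _ _ (by omega), nums_zero, zero_mul, zero_mul]
  · have : x.2 = 0 := by omega
    rw [this, tab_eq _ 0 _ (by omega), nums_zero, mul_zero, mul_zero]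

theorem hub_nums : Hub nums where
  zero := nums_zero
  range d p h := by
    rcases Nat.eq_zero_or_pos d with h0 | h0
    · subst h0; rfl
    · obtain ⟨q, rfl⟩ : ∃ q, p = q + 1 := ⟨p - 1, by omega⟩
      rw [nums_row d _ h0, row, if_neg (by omega)]
  line := by rw [nums_row 1 0 le_rfl, row, if_pos rfl]
  pts d hd := by
    rw [nums_row d 0 (by omega), row, if_neg (by omega)]
    have hd' : (2 : ℚ) ≤ d := by exact_mod_cast hd
    have h1 : (2 * d * (2 * d - 1) * (2 * d - 2) : ℚ) ≠ 0 := by
      have a1 : (0 : ℚ) < 2 * d := by linarith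
      have a2 : (0 : ℚ) < 2 * d - 1 := by linarith
      have a3 : (0 : ℚ) < 2 * d - 2 := by linarith
      positivity
    rw [mul_div_cancel₀ _ h1]
    apply Finset.sum_congr rfl
    intro x hx
    rw [mul_assoc, tab_mul d (by omega) x hx, ← mul_assoc]
  rec' d p hp := by
    have hd : 1 ≤ d := by omega
    rw [nums_row d (p + 1) hd, row, if_pos hp, ← nums_row d p hd]
    have hd' : (1 : ℚ) ≤ d := by exact_mod_cast hd
    have h1 : ((2 * d - 1) * (2 * p + 2) * (2 * p + 1) : ℚ) ≠ 0 := by
      have a2 : (0 : ℚ) < 2 * d - 1 := by linarith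
      positivity
    rw [mul_div_cancel₀ _ h1]
    congr 1
    apply Finset.sum_congr rfl
    intro x hx
    apply Finset.sum_congr rfl
    intro y _
    have := tab_mul d hd x hx y.1 y.2
    linear_combination ((x.1 : ℚ) ^ 3 * (2 * y.2 * (2 * y.2 - 1))) * this

/-- Two solutions of the recursions agree. -/
theorem Hub.unique {n m : ℕ → ℕ → ℚ} (hn : Hub n) (hm : Hub m) (d p : ℕ) : n d p = m d p := by
  induction d using Nat.strong_induction_on generalizing p with
  | _ d ih =>
    rcases Nat.eq_zero_or_pos d with h0 | h0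
    · subst h0; rw [hn.zero, hm.zero]
    · have hmul : ∀ x ∈ antidiagonal d, ∀ p q, n x.1 p * n x.2 q = m x.1 p * m x.2 q := by
        intro x hx p q
        rw [HasAntidiagonal.mem_antidiagonal] at hx
        by_cases h1 : x.1 < d
        · by_cases h2 : x.2 < d
          · rw [ih _ h1, ih _ h2]
          · have : x.1 = 0 := by omega
            rw [this, hn.zero, hm.zero, zero_mul, zero_mul]
        · have : x.2 = 0 := by omega
          rw [this, hn.zero, hm.zero, mul_zero, mul_zero]
      have hd' : (1 : ℚ) ≤ d := by exact_mod_cast h0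
      induction p with
      | zero =>
        by_cases h1 : d = 1
        · subst h1; rw [hn.line, hm.line]
        · have h2 : 2 ≤ d := by omega
          have e1 := hn.pts d h2
          have e2 := hm.pts d h2
          have e3 : ∑ x ∈ antidiagonal d, 4 * (x.2 : ℚ) ^ 2 * (x.1 - x.2) * n x.1 1 * n x.2 0 =
              ∑ x ∈ antidiagonal d, 4 * (x.2 : ℚ) ^ 2 * (x.1 - x.2) * m x.1 1 * m x.2 0 := by
            apply Finset.sum_congr rfl
            intro x hx
            rw [mul_assoc, hmul x hx, ← mul_assoc]
          have hd2 : (2 : ℚ) ≤ d := by exact_mod_cast h2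
          have h3 : (2 * d * (2 * d - 1) * (2 * d - 2) : ℚ) ≠ 0 := by
            have a1 : (0 : ℚ) < 2 * d := by linarith
            have a2 : (0 : ℚ) < 2 * d - 1 := by linarith
            have a3 : (0 : ℚ) < 2 * d - 2 := by linarith
            positivity
          apply mul_left_cancel₀ h3
          rw [e1, e2, e3]
      | succ p ihp =>
        by_cases hp : p + 1 ≤ 2 * d
        · have e1 := hn.rec' d p hp
          have e2 := hm.rec' d p hp
          have e3 : ∑ x ∈ antidiagonal d, ∑ y ∈ antidiagonal (p + 1),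
              (x.1 : ℚ) ^ 3 * n x.1 y.1 * (2 * y.2 * (2 * y.2 - 1) * n x.2 y.2) =
              ∑ x ∈ antidiagonal d, ∑ y ∈ antidiagonal (p + 1),
              (x.1 : ℚ) ^ 3 * m x.1 y.1 * (2 * y.2 * (2 * y.2 - 1) * m x.2 y.2) := by
            apply Finset.sum_congr rfl
            intro x hx
            apply Finset.sum_congr rfl
            intro y _
            have := hmul x hx y.1 y.2
            linear_combination ((x.1 : ℚ) ^ 3 * (2 * y.2 * (2 * y.2 - 1))) * this
          have h3 : ((2 * d - 1) * (2 * p + 2) * (2 * p + 1) : ℚ) ≠ 0 := by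
            have a2 : (0 : ℚ) < 2 * d - 1 := by linarith
            positivity
          apply mul_left_cancel₀ h3
          rw [e1, e2, e3, ihp]
        · rw [hn.range _ _ (by omega), hm.range _ _ (by omega)]

/-- The family of numbers. -/
def count (d p : ℕ) : ℚ := nums d p * ((2 * p).factorial * (2 * d - p).factorial)

lemma nn_count (d p : ℕ) : nn count d p = nums d p := by
  rw [nn, count, mul_div_cancel_right₀]
  positivity

lemma IsCurveCount.hub {N : ℕ → ℕ → ℚ} (h : IsCurveCount N) : Hub (nn N) where
  zero p := by rw [nn, h.zero_deg, zero_div]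
  range d p hp := by rw [nn, h.range _ _ hp, zero_div]
  line := by rw [nn, h.line]; norm_num
  pts := (five_iff h.range h.zero_deg).mp (by
    intro d b
    rw [(w_of_wdvv h.wdvv).2.2, co_zero])
  rec' := (contr_iff h.range h.zero_deg).mp (by
    rw [(w_of_wdvv h.wdvv).1, (w_of_wdvv h.wdvv).2.1]; ring)

lemma IsCurveCount.eq_count {N : ℕ → ℕ → ℚ} (h : IsCurveCount N) : N = count := by
  funext d p
  have := h.hub.unique hub_nums d p
  rw [count, ← this, nn, div_mul_cancel₀]
  positivity

theorem isCurveCount_count : IsCurveCount count where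
  line := by rw [count, hub_nums.line]; norm_num
  zero_deg p := by rw [count, hub_nums.zero, zero_mul]
  range d p h := by rw [count, hub_nums.range _ _ h, zero_mul]
  wdvv := by
    have hr : ∀ d p, 2 * d < p → count d p = 0 := fun d p h => by
      rw [count, hub_nums.range _ _ h, zero_mul]
    have h0 : ∀ p, count 0 p = 0 := fun p => by rw [count, hub_nums.zero, zero_mul]
    have hG : Hom 0 (potential count) := by
      intro d a b h
      by_contra hc
      apply h
      simp only [co, potential, coeff_apply, ix_zero, ix_one, ix_two]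
      rw [if_neg (by omega)]
    have hV : Van 1 (potential count) := by
      intro d a b h
      have : d = 0 := by omega
      subst this
      simp only [co, potential, coeff_apply, ix_zero, ix_one, ix_two]
      rw [h0]; simp
    apply wdvv_of_w
    apply all_wdvv hG hV
    · apply (contr_iff hr h0).mpr
      intro d p hp
      simp only [nn_count]
      exact hub_nums.rec' d p hp
    · apply (five_iff hr h0).mpr
      intro d hd
      simp only [nn_count]
      exact hub_nums.pts d hd

end Pool.Agent.MP_4d4b4c_ag
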