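import Pool.Agent.MP_4d4b4c_ag.Wdvv
import Pool.Agent.MP_4d4b4c_ag.Comb

set_option autoImplicit false

namespace Pool.Agent.MP_4d4b4c_ag

open MvPowerSeries Finset

/-- The associativity equations for a potential are equivalent to six of them. -/
lemma wdvv_of_w {N : ℕ → ℕ → ℚ} (h : w1 (potential N) = 0 ∧ w2 (potential N) = 0 ∧
    w3 (potential N) = 0 ∧ w4 (potential N) = 0 ∧ w5 (potential N) = 0 ∧
    w6 (potential N) = 0) (i j k l : Fin 4) :
    ∑ e : Fin 4, F3 N i j e * F3 N e.rev k l = ∑ e : Fin 4, F3 N i k e * F3 N e.rev j l := by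
  obtain ⟨h1, h2, h3, h4, h5, h6⟩ := h
  refine exchange (PP N) (PP_comm12 N) (PP_comm34 N) (PP_swap N) (PP_zero_symm N)
    ?_ ?_ ?_ ?_ ?_ ?_ i j k l
  · rw [← sub_eq_zero, PP_1122, h1]
  · rw [← sub_eq_zero, PP_1123, h2]
  · rw [← sub_eq_zero, PP_2213, h3]
  · rw [← sub_eq_zero, PP_1133, h4]
  · rw [← sub_eq_zero, PP_1233, h5]
  · rw [← sub_eq_zero, PP_2233, h6]

lemma w_of_wdvv {N : ℕ → ℕ → ℚ} (h : ∀ i j k l : Fin 4,
    ∑ e : Fin 4, F3 N i j e * F3 N e.rev k l = ∑ e : Fin 4, F3 N i k e * F3 N e.rev j l) :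
    w1 (potential N) = 0 ∧ w2 (potential N) = 0 ∧ w5 (potential N) = 0 := by
  refine ⟨?_, ?_, ?_⟩
  · rw [← PP_1122, sub_eq_zero]; exact h 1 1 2 2
  · rw [← PP_1123, sub_eq_zero]; exact h 1 1 2 3
  · rw [← PP_1233, sub_eq_zero]; exact h 2 1 3 3

/-- The recursions satisfied by the normalised numbers
`n d p = N d p / ((2 p)! (2 d - p)!)`. -/
structure Hub (n : ℕ → ℕ → ℚ) : Prop where
  zero : ∀ p, n 0 p = 0
  range : ∀ d p, 2 * d < p → n d p = 0
  line : n 1 0 = 1 / 2
  pts : ∀ d, 2 ≤ d → 2 * d * (2 * d - 1) * (2 * d - 2) * n d 0 =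
    ∑ x ∈ antidiagonal d, 4 * (x.2 : ℚ) ^ 2 * (x.1 - x.2) * n x.1 1 * n x.2 0
  rec' : ∀ d p, p + 1 ≤ 2 * d → (2 * d - 1) * (2 * p + 2) * (2 * p + 1) * n d (p + 1) =
    d * (2 * d - p) * (2 * d + p - 1) * n d p +
    ∑ x ∈ antidiagonal d, ∑ y ∈ antidiagonal (p + 1),
      (x.1 : ℚ) ^ 3 * n x.1 y.1 * (2 * y.2 * (2 * y.2 - 1) * n x.2 y.2)

section
variable {N : ℕ → ℕ → ℚ} (hr : ∀ d p, 2 * d < p → N d p = 0)
include hr

lemma contr_coeff (d a b : ℕ) :
    co (X 1 * D1 (D2 (D3 (potential N))) + X 2 * D1 (D3 (D3 (potential N)))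
      + D1 (D1 (D1 (potential N))) * D2 (D2 (potential N)) + D2 (D2 (potential N))
      - 2 * D1 (D2 (D2 (potential N)))) d a b =
    (a + b) * (d * ((b + 1) * co (potential N) d a (b + 1))) +
    co (D1 (D1 (D1 (potential N))) * D2 (D2 (potential N))) d a b
    - (2 * d - 1) * ((a + 1) * ((a + 2) * co (potential N) d (a + 2) b)) := by
  have e1 : co (X 1 * D1 (D2 (D3 (potential N)))) d a b
      = a * co (D1 (D3 (potential N))) d a b := by
    rw [← D21]
    cases a with
    | zero => rw [co_X1_mul_zero]; simp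
    | succ a => rw [co_X1_mul_succ, co_D2]; push_cast; ring
  have e2 : co (X 2 * D1 (D3 (D3 (potential N)))) d a b
      = b * co (D1 (D3 (potential N))) d a b := by
    rw [← D31]
    cases b with
    | zero => rw [co_X2_mul_zero]; simp
    | succ b => rw [co_X2_mul_succ, co_D3]; push_cast; ring
  simp only [co_add, co_sub, co_two_mul, e1, e2, co_D1, co_D2, co_D3]
  push_cast
  ring

lemma rep_prod : Rep 2 0 (D1 (D1 (D1 (potential N))) * D2 (D2 (potential N)))
    (conv (fun d p => d * (d * (d * nn N d p)))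
      (fun d p => (2 * p - (1 : ℕ)) * ((2 * p - (0 : ℕ)) * nn N d p))) :=
  (rep_potential hr).d1.d1.d1.mul (rep_potential hr).d2.d2

/-- The contracted equation, in coefficients. -/
lemma contr_iff (h0 : ∀ p, N 0 p = 0) :
    (X 1 * w1 (potential N) + 2 * (X 2 * w2 (potential N)) = 0) ↔
    (∀ d p, p + 1 ≤ 2 * d → (2 * d - 1) * (2 * p + 2) * (2 * p + 1) * nn N d (p + 1) =
      d * (2 * d - p) * (2 * d + p - 1) * nn N d p +
      ∑ x ∈ antidiagonal d, ∑ y ∈ antidiagonal (p + 1),
        (x.1 : ℚ) ^ 3 * nn N x.1 y.1 * (2 * y.2 * (2 * y.2 - 1) * nn N x.2 y.2)) := by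
  have hG : Hom 0 (potential N) := by
    intro d a b h
    by_contra hc
    apply h
    simp only [co, potential, coeff_apply, ix_zero, ix_one, ix_two]
    rw [if_neg (by omega)]
  rw [contract hG]
  have hcv : ∀ d p, conv (fun d p => d * (d * (d * nn N d p)))
      (fun d p => (2 * p - (1 : ℕ)) * ((2 * p - (0 : ℕ)) * nn N d p)) d p =
      ∑ x ∈ antidiagonal d, ∑ y ∈ antidiagonal p,
        (x.1 : ℚ) ^ 3 * nn N x.1 y.1 * (2 * y.2 * (2 * y.2 - 1) * nn N x.2 y.2) := by
    intro d p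
    rw [conv]
    apply Finset.sum_congr rfl; intro x _
    apply Finset.sum_congr rfl; intro y _
    push_cast; ring
  have hR := rep_potential hr
  constructor
  · intro h d p hp
    have h' : co (X 1 * D1 (D2 (D3 (potential N))) + X 2 * D1 (D3 (D3 (potential N)))
      + D1 (D1 (D1 (potential N))) * D2 (D2 (potential N)) + D2 (D2 (potential N))
      - 2 * D1 (D2 (D2 (potential N)))) d (2 * p) (2 * d - (p + 1)) = 0 := by
      have h2 : (-2 : PS) ≠ 0 := by
        intro hh
        have := congrArg (fun f => co f 0 0 0) hh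
        have h3 : co (-2 : PS) 0 0 0 = -2 := by
          have : (-2 : PS) = -(2 * 1) := by ring
          rw [this, co_neg, co_two_mul, co_one]; norm_num
        simp only [h3, co_zero] at this
        norm_num at this
      have := (mul_eq_zero.mp h).resolve_left h2
      rw [this, co_zero]
    rw [contr_coeff hr, (rep_prod hr).val d (2 * p) (2 * d - (p + 1)) (p + 1) (by omega)
      (by omega), hcv, hR.val d (2 * p) (2 * d - (p + 1) + 1) p (by omega) (by omega),
      hR.val d (2 * p + 2) (2 * d - (p + 1)) (p + 1) (by omega) (by omega)] at h'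
    have hb : ((2 * d - (p + 1) : ℕ) : ℚ) = 2 * d - (p + 1) := by
      rw [Nat.cast_sub hp]; push_cast; ring
    rw [hb] at h'
    push_cast at h'
    linarith
  · intro h
    have : (X 1 * D1 (D2 (D3 (potential N))) + X 2 * D1 (D3 (D3 (potential N)))
      + D1 (D1 (D1 (potential N))) * D2 (D2 (potential N)) + D2 (D2 (potential N))
      - 2 * D1 (D2 (D2 (potential N)))) = 0 := by
      apply co_ext
      intro d a b
      rw [contr_coeff hr, co_zero]
      by_cases hex : ∃ p, a + 2 = 2 * p ∧ b + 0 + p = 2 * d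
      · obtain ⟨p, hp1, hp2⟩ := hex
        obtain ⟨q, rfl⟩ : ∃ q, p = q + 1 := ⟨p - 1, by omega⟩
        rw [(rep_prod hr).val d a b (q + 1) hp1 hp2, hcv,
          hR.val d a (b + 1) q (by omega) (by omega),
          hR.val d (a + 2) b (q + 1) (by omega) (by omega)]
        have hq := h d q (by omega)
        have ha : (a : ℚ) = 2 * q := by
          have : a = 2 * q := by omega
          rw [this]; push_cast; ring
        have hb : (b : ℚ) = 2 * d - (q + 1) := by
          have : b + (q + 1) = 2 * d := by omega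
          have h' : (b : ℚ) + (q + 1) = 2 * d := by exact_mod_cast this
          linarith
        rw [ha, hb]
        linarith
      · push Not at hex
        have hex' : ∀ p, ¬ (a + 2 = 2 * p ∧ b + 0 + p = 2 * d) := fun p hp => hex p hp.1 hp.2
        rw [(rep_prod hr).nil d a b hex', hR.nil d a (b + 1)
          (fun p hp => hex' (p + 1) (by omega)), hR.nil d (a + 2) b
          (fun p hp => hex' p (by omega))]
        ring
    rw [this, mul_zero]

/-- The fifth equation on `t₂ = 0`, in coefficients. -/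
lemma five_iff (h0 : ∀ p, N 0 p = 0) :
    (∀ d b, co (w5 (potential N)) d 0 b = 0) ↔
    (∀ d, 2 ≤ d → 2 * d * (2 * d - 1) * (2 * d - 2) * nn N d 0 =
      ∑ x ∈ antidiagonal d, 4 * (x.2 : ℚ) ^ 2 * (x.1 - x.2) * nn N x.1 1 * nn N x.2 0) := by
  have hR := rep_potential hr
  have hnil : ∀ d b, (∀ p, ¬ (0 + 0 = 2 * p ∧ b + 3 + p = 2 * d)) →
      co (w5 (potential N)) d 0 b = 0 := by
    intro d b h
    have hb : ∀ p, ¬ (0 + 2 = 2 * p ∧ b + 2 + p = 2 * d) := fun p hp => h 0 (by omega)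
    rw [w5, co_sub, co_sub, co_add, co_add, hR.d3.d3.d3.nil d 0 b (fun p hp => h p (by omega)),
      (hR.d2.d1.d1.mul hR.d3.d3.d2).nil d 0 b (fun p hp => hb p (by omega)),
      (hR.d2.d2.d1.mul hR.d3.d3.d1).nil d 0 b (fun p hp => hb p (by omega)),
      (hR.d3.d2.d1.mul hR.d3.d2.d1).nil d 0 b (fun p hp => hb p (by omega)),
      (hR.d3.d2.d2.mul hR.d3.d1.d1).nil d 0 b (fun p hp => hb p (by omega))]
    ring
  have hval : ∀ d b, b + 3 = 2 * d → co (w5 (potential N)) d 0 b =
      2 * d * (2 * d - 1) * (2 * d - 2) * nn N d 0 -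
      ∑ x ∈ antidiagonal d, 4 * (x.2 : ℚ) ^ 2 * (x.1 - x.2) * nn N x.1 1 * nn N x.2 0 := by
    intro d b h
    rw [w5, co_sub, co_sub, co_add, co_add, hR.d3.d3.d3.val d 0 b 0 (by omega) (by omega),
      (hR.d2.d1.d1.mul hR.d3.d3.d2).val d 0 b 1 (by omega) (by omega),
      (hR.d2.d2.d1.mul hR.d3.d3.d1).val d 0 b 1 (by omega) (by omega),
      (hR.d3.d2.d1.mul hR.d3.d2.d1).val d 0 b 1 (by omega) (by omega),
      (hR.d3.d2.d2.mul hR.d3.d1.d1).val d 0 b 1 (by omega) (by omega)]
    have hanti : ∀ F : ℕ × ℕ → ℚ, ∑ y ∈ antidiagonal 1, F y = F (0, 1) + F (1, 0) := by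
      intro F
      rw [Finset.Nat.antidiagonal_succ]
      simp
    have key : ∀ A A' S1 S2 S3 S4 S5 : ℚ, A = A' → S1 + S2 - S3 - S4 = - S5 →
        A + S1 + S2 - S3 - S4 = A' - S5 := by
      intro A A' S1 S2 S3 S4 S5 h1 h2; linarith
    apply key
    · push_cast; ring
    · simp only [conv, hanti]
      rw [← Finset.sum_add_distrib, ← Finset.sum_sub_distrib, ← Finset.sum_sub_distrib,
        ← Finset.sum_neg_distrib]
      apply Finset.sum_congr rfl
      intro x _
      push_cast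
      ring
  constructor
  · intro h d hd
    have := hval d (2 * d - 3) (by omega)
    rw [h] at this
    linarith
  · intro h d b
    by_cases hb : b + 3 = 2 * d
    · rw [hval d b hb, h d (by omega), sub_self]
    · exact hnil d b (fun p hp => hb (by omega))

end

end Pool.Agent.MP_4d4b4c_ag
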