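import Pool.Agent.MP_4d4b4c_ag.Defs

set_option autoImplicit false

namespace Pool.Agent.MP_4d4b4c_ag

open MvPowerSeries Finset

/-- The exponent of `q^d t₂^a t₃^b`. -/
noncomputable def ix (d a b : ℕ) : Fin 3 →₀ ℕ := Finsupp.equivFunOnFinite.symm ![d, a, b]

@[simp] lemma ix_zero (d a b : ℕ) : ix d a b 0 = d := rfl
@[simp] lemma ix_one (d a b : ℕ) : ix d a b 1 = a := rfl
@[simp] lemma ix_two (d a b : ℕ) : ix d a b 2 = b := rfl

lemma ix_eta (m : Fin 3 →₀ ℕ) : ix (m 0) (m 1) (m 2) = m := by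
  ext i; fin_cases i <;> rfl

lemma ix_add (d a b d' a' b' : ℕ) :
    ix d a b + ix d' a' b' = ix (d + d') (a + a') (b + b') := by
  ext i; fin_cases i <;> rfl

lemma ix_inj {d a b d' a' b' : ℕ} : ix d a b = ix d' a' b' ↔ d = d' ∧ a = a' ∧ b = b' := by
  constructor
  · intro h
    refine ⟨?_, ?_, ?_⟩
    · simpa using DFunLike.congr_fun h 0
    · simpa using DFunLike.congr_fun h 1
    · simpa using DFunLike.congr_fun h 2
  · rintro ⟨rfl, rfl, rfl⟩; rfl

lemma single_zero : (Finsupp.single (0 : Fin 3) 1 : Fin 3 →₀ ℕ) = ix 1 0 0 := by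
  ext i; fin_cases i <;> simp [ix]

lemma single_one : (Finsupp.single (1 : Fin 3) 1 : Fin 3 →₀ ℕ) = ix 0 1 0 := by
  ext i; fin_cases i <;> simp [ix]

lemma single_two : (Finsupp.single (2 : Fin 3) 1 : Fin 3 →₀ ℕ) = ix 0 0 1 := by
  ext i; fin_cases i <;> simp [ix]

/-- Coefficient of `q^d t₂^a t₃^b`. -/
noncomputable def co (f : PS) (d a b : ℕ) : ℚ := coeff (ix d a b) f

lemma co_ext {f g : PS} (h : ∀ d a b, co f d a b = co g d a b) : f = g := by
  ext m
  have := h (m 0) (m 1) (m 2)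
  simpa [co, ix_eta] using this

@[simp] lemma co_add (f g : PS) (d a b : ℕ) : co (f + g) d a b = co f d a b + co g d a b := by
  simp [co]

@[simp] lemma co_sub (f g : PS) (d a b : ℕ) : co (f - g) d a b = co f d a b - co g d a b := by
  simp [co]

@[simp] lemma co_neg (f : PS) (d a b : ℕ) : co (-f) d a b = - co f d a b := by
  simp [co]

@[simp] lemma co_zero (d a b : ℕ) : co 0 d a b = 0 := by
  simp [co]

lemma co_one (d a b : ℕ) : co 1 d a b = if d = 0 ∧ a = 0 ∧ b = 0 then 1 else 0 := by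
  have h0 : (0 : Fin 3 →₀ ℕ) = ix 0 0 0 := by ext i; fin_cases i <;> rfl
  rw [co, coeff_one, h0]
  simp only [ix_inj]

@[simp] lemma co_natCast_mul (n : ℕ) (f : PS) (d a b : ℕ) :
    co ((n : PS) * f) d a b = n * co f d a b := by
  have : ((n : PS)) = C (n : ℚ) := by simp
  rw [co, this, coeff_C_mul]; rfl

@[simp] lemma co_two_mul (f : PS) (d a b : ℕ) : co (2 * f) d a b = 2 * co f d a b :=
  co_natCast_mul 2 f d a b

@[simp] lemma co_four_mul (f : PS) (d a b : ℕ) : co (4 * f) d a b = 4 * co f d a b :=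
  co_natCast_mul 4 f d a b

/-- `q ∂/∂q` as a derivation. -/
noncomputable def D1 : Derivation ℚ PS PS := (X 0 : PS) • pderiv ℚ 0
/-- `∂/∂t₂` as a derivation. -/
noncomputable def D2 : Derivation ℚ PS PS := pderiv ℚ 1
/-- `∂/∂t₃` as a derivation. -/
noncomputable def D3 : Derivation ℚ PS PS := pderiv ℚ 2

lemma D1_apply (f : PS) : D1 f = X 0 * pderiv ℚ 0 f := rfl

lemma X_eq_monomial (i : Fin 3) : (X i : PS) = monomial (Finsupp.single i 1) 1 := rfl

lemma co_X0_mul_succ (f : PS) (d a b : ℕ) : co (X 0 * f) (d + 1) a b = co f d a b := by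
  have h : ix (d + 1) a b = ix 1 0 0 + ix d a b := by rw [ix_add]; congr 1 <;> ring
  rw [co, h, X_eq_monomial, single_zero, coeff_add_monomial_mul, one_mul]; rfl

lemma co_X0_mul_zero (f : PS) (a b : ℕ) : co (X 0 * f) 0 a b = 0 := by
  rw [co, X_eq_monomial, coeff_monomial_mul, if_neg]
  intro h
  have := h 0
  simp at this

lemma co_X1_mul_succ (f : PS) (d a b : ℕ) : co (X 1 * f) d (a + 1) b = co f d a b := by
  have h : ix d (a + 1) b = ix 0 1 0 + ix d a b := by rw [ix_add]; congr 1 <;> ring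
  rw [co, h, X_eq_monomial, single_one, coeff_add_monomial_mul, one_mul]; rfl

lemma co_X1_mul_zero (f : PS) (d b : ℕ) : co (X 1 * f) d 0 b = 0 := by
  rw [co, X_eq_monomial, coeff_monomial_mul, if_neg]
  intro h
  have := h 1
  simp at this

lemma co_X2_mul_succ (f : PS) (d a b : ℕ) : co (X 2 * f) d a (b + 1) = co f d a b := by
  have h : ix d a (b + 1) = ix 0 0 1 + ix d a b := by rw [ix_add]; congr 1 <;> ring
  rw [co, h, X_eq_monomial, single_two, coeff_add_monomial_mul, one_mul]; rfl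

lemma co_X2_mul_zero (f : PS) (d a : ℕ) : co (X 2 * f) d a 0 = 0 := by
  rw [co, X_eq_monomial, coeff_monomial_mul, if_neg]
  intro h
  have := h 2
  simp at this

@[simp] lemma co_D1 (f : PS) (d a b : ℕ) : co (D1 f) d a b = d * co f d a b := by
  cases d with
  | zero => rw [D1_apply, co_X0_mul_zero]; simp
  | succ d =>
    rw [D1_apply, co_X0_mul_succ, co, coeff_pderiv, single_zero, ix_add]
    simp [co, mul_comm]

@[simp] lemma co_D2 (f : PS) (d a b : ℕ) : co (D2 f) d a b = (a + 1) * co f d (a + 1) b := by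
  rw [D2, co, coeff_pderiv, single_one, ix_add]
  simp [co, mul_comm]

@[simp] lemma co_D3 (f : PS) (d a b : ℕ) : co (D3 f) d a b = (b + 1) * co f d a (b + 1) := by
  rw [D3, co, coeff_pderiv, single_two, ix_add]
  simp [co, mul_comm]

lemma D21 (f : PS) : D2 (D1 f) = D1 (D2 f) := by
  apply co_ext; intro d a b; simp only [co_D1, co_D2]; ring

lemma D31 (f : PS) : D3 (D1 f) = D1 (D3 f) := by
  apply co_ext; intro d a b; simp only [co_D1, co_D3]; ring

lemma D32 (f : PS) : D3 (D2 f) = D2 (D3 f) := by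
  apply co_ext; intro d a b; simp only [co_D2, co_D3]; ring

/-- Triple-sum form of the coefficients of a product. -/
lemma co_mul (f g : PS) (d a b : ℕ) :
    co (f * g) d a b = ∑ x ∈ antidiagonal d, ∑ y ∈ antidiagonal a, ∑ z ∈ antidiagonal b,
      co f x.1 y.1 z.1 * co g x.2 y.2 z.2 := by
  classical
  rw [co, coeff_mul]
  rw [← Finset.sum_product', ← Finset.sum_product']
  symm
  refine Finset.sum_nbij' (fun t => (ix t.1.1.1 t.1.2.1 t.2.1, ix t.1.1.2 t.1.2.2 t.2.2))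
    (fun m => (((m.1 0, m.2 0), (m.1 1, m.2 1)), (m.1 2, m.2 2))) ?_ ?_ ?_ ?_ ?_
  · rintro ⟨⟨⟨d1, d2⟩, ⟨a1, a2⟩⟩, ⟨b1, b2⟩⟩ h
    simp only [mem_product, HasAntidiagonal.mem_antidiagonal] at h ⊢
    rw [ix_add, ix_inj]; exact ⟨h.1.1, h.1.2, h.2⟩
  · rintro ⟨m1, m2⟩ h
    simp only [mem_product, HasAntidiagonal.mem_antidiagonal] at h ⊢
    refine ⟨⟨?_, ?_⟩, ?_⟩
    · simpa using DFunLike.congr_fun h 0
    · simpa using DFunLike.congr_fun h 1
    · simpa using DFunLike.congr_fun h 2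
  · rintro ⟨⟨⟨d1, d2⟩, ⟨a1, a2⟩⟩, ⟨b1, b2⟩⟩ h
    rfl
  · rintro ⟨m1, m2⟩ h
    simp only [ix_eta]
  · rintro ⟨⟨⟨d1, d2⟩, ⟨a1, a2⟩⟩, ⟨b1, b2⟩⟩ h
    rfl

end Pool.Agent.MP_4d4b4c_ag
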