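import Pool.Agent.MP_4d4b4c_ag.Upper

set_option autoImplicit false

namespace Pool.Agent.MP_4d4b4c_ag

open Filter Topology

section
variable {n : ℕ → ℕ → ℚ} (h : Hub n)
include h

/-- Simplified upper bound. -/
lemma Hub.upper' (d p : ℕ) (hd : 1 ≤ d) (hp : p ≤ 2 * d) :
    n d p ≤ ((2 * d + p).choose (2 * p) : ℚ) * 192 ^ d := by
  have h1 := h.upper d hd p hp
  refine h1.trans (mul_le_mul_of_nonneg_left ?_ (by positivity))
  rw [UU]
  apply div_le_self (by positivity)
  have : (1 : ℚ) ≤ d ^ 5 := one_le_pow₀ (by exact_mod_cast hd)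
  linarith

/-- Existence of the exponential growth rate of the normalised numbers along a ray. -/
lemma Hub.tendsto_log (α β : ℕ) (hα : 0 < α) (hβ : 0 < β) (hβα : β ≤ 2 * α) :
    ∃ l : ℝ, Tendsto (fun k : ℕ => Real.log (n (α * k) (β * k) : ℝ) / k) atTop (𝓝 l) := by
  set u : ℕ → ℝ := fun k => (n (α * k) (β * k) : ℝ) with hu
  have hpos : ∀ k, 1 ≤ k → 0 < u k := by
    intro k hk
    have := h.pos (α * k) (β * k) (Nat.mul_pos hα hk) (Nat.mul_pos hβ hk) (by nlinarith)
    simp only [hu]
    exact_mod_cast this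
  have hsup : ∀ k1 k2, 1 ≤ k1 → 1 ≤ k2 → u k1 * u k2 ≤ 32 * u (k1 + k2) := by
    intro k1 k2 h1 h2
    have := h.super α β hα hβ hβα k1 k2 h1 h2
    simp only [hu]
    exact_mod_cast this
  set a : ℕ → ℝ := fun k => if k = 0 then 0 else Real.log 32 - Real.log (u k) with ha
  have hsub : Subadditive a := by
    intro k1 k2
    simp only [ha]
    rcases Nat.eq_zero_or_pos k1 with h1 | h1
    · subst h1; simp
    · rcases Nat.eq_zero_or_pos k2 with h2 | h2
      · subst h2; simp
      · rw [if_neg (by omega), if_neg (by omega), if_neg (by omega)]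
        have e := Real.log_le_log (mul_pos (hpos k1 h1) (hpos k2 h2)) (hsup k1 k2 h1 h2)
        rw [Real.log_mul (hpos k1 h1).ne' (hpos k2 h2).ne',
          Real.log_mul (by norm_num) (hpos (k1 + k2) (by omega)).ne'] at e
        linarith
  have hub : ∀ k, 1 ≤ k → Real.log (u k) ≤ k * ((2 * α + β) * Real.log 2 + α * Real.log 192) := by
    intro k hk
    have b := h.upper' (α * k) (β * k) (Nat.mul_pos hα hk) (by nlinarith)
    have b' : u k ≤ (2 : ℝ) ^ (2 * (α * k) + β * k) * 192 ^ (α * k) := by
      have c : ((2 * (α * k) + β * k).choose (2 * (β * k)) : ℚ) ≤ 2 ^ (2 * (α * k) + β * k) := by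
        exact_mod_cast Nat.choose_le_two_pow _ _
      have b2 : n (α * k) (β * k) ≤ 2 ^ (2 * (α * k) + β * k) * 192 ^ (α * k) :=
        b.trans (mul_le_mul_of_nonneg_right c (by positivity))
      simp only [hu]
      exact_mod_cast b2
    have b3 := Real.log_le_log (hpos k hk) b'
    rw [Real.log_mul (by positivity) (by positivity), Real.log_pow, Real.log_pow] at b3
    push_cast at b3
    linarith
  have hbdd : BddBelow (Set.range fun k => a k / k) := by
    refine ⟨-((2 * α + β) * Real.log 2 + α * Real.log 192), ?_⟩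
    rintro _ ⟨k, rfl⟩
    simp only [ha]
    have hl2 : 0 < Real.log 2 := Real.log_pos (by norm_num)
    have hl192 : 0 < Real.log 192 := Real.log_pos (by norm_num)
    have hl32 : 0 < Real.log 32 := Real.log_pos (by norm_num)
    split_ifs with hk
    · subst hk
      simp only [Nat.cast_zero, div_zero]
      have : 0 ≤ (2 * (α : ℝ) + β) * Real.log 2 + α * Real.log 192 := by positivity
      linarith
    · have hk1 : 1 ≤ k := by omega
      have hk' : (0 : ℝ) < k := by exact_mod_cast hk1
      rw [le_div_iff₀ hk']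
      have := hub k hk1
      linarith
  have hlim := hsub.tendsto_lim hbdd
  refine ⟨-hsub.lim, ?_⟩
  have h32 : Tendsto (fun k : ℕ => Real.log 32 / (k : ℝ)) atTop (𝓝 0) :=
    tendsto_const_div_atTop_nhds_zero_nat _
  have := h32.sub hlim
  rw [zero_sub] at this
  refine this.congr' ?_
  filter_upwards [eventually_ge_atTop 1] with k hk
  simp only [ha]
  rw [if_neg (by omega), ← sub_div]
  congr 1
  ring

end

/-- Growth rate of the binomial coefficients along a ray. -/
lemma tendsto_log_choose (a b : ℕ) :
    ∃ l : ℝ, Tendsto (fun k : ℕ => Real.log (((a * k).choose (b * k) : ℕ) : ℝ) / k)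
      atTop (𝓝 l) := by
  by_cases hba : b ≤ a
  · have hpos : ∀ k, 0 < (((a * k).choose (b * k) : ℕ) : ℝ) := by
      intro k
      have : 0 < (a * k).choose (b * k) := Nat.choose_pos (Nat.mul_le_mul_right k hba)
      exact_mod_cast this
    set c : ℕ → ℝ := fun k => - Real.log (((a * k).choose (b * k) : ℕ) : ℝ) with hc
    have hsub : Subadditive c := by
      intro k1 k2
      simp only [hc]
      have e : (((a * k1).choose (b * k1) : ℕ) : ℝ) * (((a * k2).choose (b * k2) : ℕ) : ℝ) ≤
          (((a * (k1 + k2)).choose (b * (k1 + k2)) : ℕ) : ℝ) := by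
        have := choose_mul_le (a * k1) (a * k2) (b * k1) (b * k2)
        rw [← mul_add, ← mul_add] at this
        exact_mod_cast this
      have e2 := Real.log_le_log (mul_pos (hpos k1) (hpos k2)) e
      rw [Real.log_mul (hpos k1).ne' (hpos k2).ne'] at e2
      linarith
    have hbdd : BddBelow (Set.range fun k => c k / k) := by
      refine ⟨-(a * Real.log 2), ?_⟩
      rintro _ ⟨k, rfl⟩
      have hl2 : 0 < Real.log 2 := Real.log_pos (by norm_num)
      rcases Nat.eq_zero_or_pos k with hk | hk
      · subst hk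
        simp only [Nat.cast_zero, div_zero]
        have : 0 ≤ (a : ℝ) * Real.log 2 := by positivity
        linarith
      · have hk' : (0 : ℝ) < k := by exact_mod_cast hk
        simp only
        rw [le_div_iff₀ hk']
        simp only [hc]
        have e : (((a * k).choose (b * k) : ℕ) : ℝ) ≤ 2 ^ (a * k) := by
          exact_mod_cast Nat.choose_le_two_pow _ _
        have e2 := Real.log_le_log (hpos k) e
        rw [Real.log_pow] at e2
        push_cast at e2
        linarith
    refine ⟨-hsub.lim, ?_⟩
    have := (hsub.tendsto_lim hbdd).neg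
    refine this.congr ?_
    intro k
    simp only [hc]
    rw [neg_div, neg_neg]
  · refine ⟨0, ?_⟩
    refine tendsto_const_nhds.congr' ?_
    filter_upwards [eventually_ge_atTop 1] with k hk
    have : (a * k).choose (b * k) = 0 := by
      apply Nat.choose_eq_zero_of_lt
      exact Nat.mul_lt_mul_of_pos_right (by omega) hk
    rw [this]; simp

/-- The main theorem for the explicit family of numbers. -/
theorem main_limit (α β : ℕ) (hα : 0 < α) (hβ : 0 < β) (hβα : β ≤ 2 * α) :
    ∃ L : ℝ, 0 < L ∧ Tendsto (fun d : ℕ =>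
      ((count (α * d) (β * d) : ℝ) / ((2 * α + β) * d).factorial) ^ ((1 : ℝ) / d))
      atTop (𝓝 L) := by
  have h := hub_nums
  obtain ⟨l1, h1⟩ := h.tendsto_log α β hα hβ hβα
  obtain ⟨l2, h2⟩ := tendsto_log_choose (2 * α + β) (2 * β)
  refine ⟨Real.exp (l1 - l2), Real.exp_pos _, ?_⟩
  have h3 := (Real.continuous_exp.tendsto (l1 - l2)).comp (h1.sub h2)
  refine h3.congr' ?_
  filter_upwards [eventually_ge_atTop 1] with k hk
  have hk' : (0 : ℝ) < k := by exact_mod_cast hk
  have hle : 2 * (β * k) ≤ (2 * α + β) * k := by nlinarith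
  have hpos : (0 : ℝ) < (nums (α * k) (β * k) : ℝ) := by
    have := h.pos (α * k) (β * k) (Nat.mul_pos hα hk) (Nat.mul_pos hβ hk) (by nlinarith)
    exact_mod_cast this
  have hcpos : (0 : ℝ) < ((((2 * α + β) * k).choose (2 * β * k) : ℕ) : ℝ) := by
    have : 0 < ((2 * α + β) * k).choose (2 * β * k) := by
      apply Nat.choose_pos; nlinarith
    exact_mod_cast this
  have hval : (count (α * k) (β * k) : ℝ) / ((2 * α + β) * k).factorial =
      (nums (α * k) (β * k) : ℝ) / ((((2 * α + β) * k).choose (2 * β * k) : ℕ) : ℝ) := by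
    have hch := Nat.choose_mul_factorial_mul_factorial (n := (2 * α + β) * k) (k := 2 * (β * k)) hle
    have e1 : (2 * α + β) * k - 2 * (β * k) = 2 * (α * k) - β * k := by
      have : (2 * α + β) * k = 2 * (α * k) + β * k := by ring
      omega
    rw [e1] at hch
    have e2 : 2 * β * k = 2 * (β * k) := by ring
    rw [e2, count, ← hch]
    push_cast
    have f1 : ((2 * (β * k)).factorial : ℝ) ≠ 0 := by positivity
    have f2 : ((2 * (α * k) - β * k).factorial : ℝ) ≠ 0 := by positivity
    rw [e2] at hcpos
    have f3 := hcpos.ne'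
    field_simp
  rw [hval]
  simp only [Function.comp]
  rw [Real.rpow_def_of_pos (div_pos hpos hcpos), Real.log_div hpos.ne' hcpos.ne']
  congr 1
  field_simp

end Pool.Agent.MP_4d4b4c_ag
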