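import Pool.Agent.MP_4d4b4c_ag.Quad2

set_option autoImplicit false

namespace Pool.Agent.MP_4d4b4c_ag

open Finset

lemma th_th : TH (TH (s20 - s11)) = s40 - s22 := by
  simp only [map_sub, TH_s20, TH_s11, map_add, th_two, TH_s30, TH_s21]; ring

lemma diag2 : TH s20 * TH (s20 - s11) - s20 * TH (TH (s20 - s11)) =
    2 * TH (2 * TH (s20 - s11) - (s20 - s11)) - 2 * (2 * TH (s20 - s11) - (s20 - s11)) := by
  have hA := diagA
  have h1 := diag1
  rw [th_th]
  simp only [map_add, map_sub, th_two, TH_s20, TH_s11, TH_s30, TH_s21] at hA h1 ⊢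
  linear_combination hA - h1

lemma coeff_two_mul (f : PowerSeries ℚ) (n : ℕ) :
    PowerSeries.coeff n (2 * f) = 2 * PowerSeries.coeff n f := by
  rw [two_mul, map_add]; ring

lemma pc_sub (f g : PowerSeries ℚ) (n : ℕ) :
    PowerSeries.coeff n (f - g) = PowerSeries.coeff n f - PowerSeries.coeff n g :=
  map_sub _ _ _

/-- Coefficients of `s20`. -/
noncomputable def c20 (d : ℕ) : ℚ := PowerSeries.coeff d s20
/-- Coefficients of `s20 - s11`. -/
noncomputable def cdf (d : ℕ) : ℚ := PowerSeries.coeff d (s20 - s11)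

lemma c20_eq (d : ℕ) : c20 d = ∑ x ∈ antidiagonal d, (x.1 : ℚ) * (x.1 * mm x.1 x.2) := by
  rw [c20, s20, coeff_dg]
  simp only [qo_EA, qo_GG]

lemma c20_eq' (d : ℕ) : c20 d = ∑ x ∈ antidiagonal d, (x.2 : ℚ) * (x.2 * mm x.1 x.2) := by
  rw [c20, ← s02, coeff_dg]
  simp only [qo_EB, qo_GG]

lemma cdf_eq (d : ℕ) : cdf d = ∑ x ∈ antidiagonal d, (x.1 : ℚ) * (x.1 * mm x.1 x.2)
    - ∑ x ∈ antidiagonal d, (x.1 : ℚ) * (x.2 * mm x.1 x.2) := by
  rw [cdf, map_sub, s20, s11, coeff_dg, coeff_dg]
  simp only [qo_EA, qo_EB, qo_GG]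

lemma c20_nonneg (d : ℕ) : 0 ≤ c20 d := by
  rw [c20_eq]
  apply Finset.sum_nonneg
  intro x _
  have := mm_nonneg x.1 x.2
  positivity

lemma cdf_nonneg (d : ℕ) : 0 ≤ cdf d := by
  have h : 2 * cdf d = ∑ x ∈ antidiagonal d, ((x.1 : ℚ) - x.2) ^ 2 * mm x.1 x.2 := by
    have e1 := c20_eq d
    have e2 := c20_eq' d
    have e3 := cdf_eq d
    have e4 : ∑ x ∈ antidiagonal d, ((x.1 : ℚ) - x.2) ^ 2 * mm x.1 x.2 =
        ∑ x ∈ antidiagonal d, (x.1 : ℚ) * (x.1 * mm x.1 x.2) +
        ∑ x ∈ antidiagonal d, (x.2 : ℚ) * (x.2 * mm x.1 x.2) -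
        2 * ∑ x ∈ antidiagonal d, (x.1 : ℚ) * (x.2 * mm x.1 x.2) := by
      rw [Finset.mul_sum, ← Finset.sum_add_distrib, ← Finset.sum_sub_distrib]
      apply Finset.sum_congr rfl
      intro x _
      ring
    rw [e4, ← e2, ← e1]
    rw [e3, ← e1]; ring
  have : 0 ≤ ∑ x ∈ antidiagonal d, ((x.1 : ℚ) - x.2) ^ 2 * mm x.1 x.2 := by
    apply Finset.sum_nonneg
    intro x _
    have := mm_nonneg x.1 x.2
    positivity
  linarith

lemma c20_zero : c20 0 = 0 := by rw [c20_eq]; simp
lemma cdf_zero : cdf 0 = 0 := by rw [cdf_eq]; simp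

lemma mm_one_zero : mm 1 0 = 1 := by rw [mm_edge 1 0 (Or.inr rfl)]; simp
lemma mm_zero_one : mm 0 1 = 1 := by rw [mm_edge 0 1 (Or.inl rfl)]; simp

lemma sum_anti_one (F : ℕ × ℕ → ℚ) : ∑ y ∈ antidiagonal 1, F y = F (0, 1) + F (1, 0) := by
  rw [Finset.Nat.antidiagonal_succ]
  simp

lemma c20_one : c20 1 = 1 := by
  rw [c20_eq, sum_anti_one]; simp [mm_one_zero]
lemma cdf_one : cdf 1 = 1 := by
  rw [cdf_eq, sum_anti_one, sum_anti_one]; simp [mm_one_zero]

/-- Numerical form of `diag2`. -/
lemma cdf_rec (d : ℕ) : ∑ x ∈ antidiagonal d,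
    ((x.1 : ℚ) - x.2) * x.2 * c20 x.1 * cdf x.2 = (2 * d - 1) * (2 * d - 2) * cdf d := by
  have h := congrArg (PowerSeries.coeff d) diag2
  rw [pc_sub, PowerSeries.coeff_mul, PowerSeries.coeff_mul, pc_sub, coeff_two_mul,
    coeff_TH, coeff_two_mul, pc_sub, coeff_two_mul, coeff_TH] at h
  simp only [coeff_TH] at h
  change _ = 2 * (d * (2 * (d * cdf d) - cdf d)) - 2 * (2 * (d * cdf d) - cdf d) at h
  have e : ∑ x ∈ antidiagonal d, ((x.1 : ℚ) - x.2) * x.2 * c20 x.1 * cdf x.2 =
      ∑ x ∈ antidiagonal d, (x.1 * PowerSeries.coeff x.1 s20) *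
        (x.2 * PowerSeries.coeff x.2 (s20 - s11)) -
      ∑ x ∈ antidiagonal d, PowerSeries.coeff x.1 s20 *
        (x.2 * (x.2 * PowerSeries.coeff x.2 (s20 - s11))) := by
    rw [← Finset.sum_sub_distrib]
    apply Finset.sum_congr rfl
    intro x _
    simp only [c20, cdf]
    ring
  rw [e, h]; ring

/-- Numerical form of `diag1`. -/
lemma c20_rec (d : ℕ) : ∑ x ∈ antidiagonal d, (x.1 : ℚ) ^ 2 * cdf x.1 * c20 x.2 =
    2 * (2 * d - 1) * (c20 d - d * cdf d) := by
  have h := congrArg (PowerSeries.coeff d) diag1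
  have e1 : s20 + s21 - s30 = s20 - TH (s20 - s11) := by
    rw [map_sub, TH_s20, TH_s11]; ring
  rw [← th_th, e1, PowerSeries.coeff_mul, coeff_two_mul, pc_sub, coeff_two_mul,
    coeff_TH, pc_sub, coeff_TH] at h
  simp only [coeff_TH] at h
  change _ = 2 * (2 * (d * (c20 d - d * cdf d)) - (c20 d - d * cdf d)) at h
  have e : ∑ x ∈ antidiagonal d, (x.1 : ℚ) ^ 2 * cdf x.1 * c20 x.2 =
      ∑ x ∈ antidiagonal d, (x.1 * (x.1 * PowerSeries.coeff x.1 (s20 - s11))) *
        PowerSeries.coeff x.2 s20 := by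
    apply Finset.sum_congr rfl
    intro x _
    simp only [c20, cdf]
    ring
  rw [e, h]; ring

/-- The numbers with at most two line conditions, through the quadric surface. -/
theorem Hub.link {n : ℕ → ℕ → ℚ} (h : Hub n) (d : ℕ) :
    2 * d * n d 0 = cdf d ∧ 2 * n d 1 = c20 d := by
  induction d using Nat.strong_induction_on with
  | _ d ih =>
    rcases Nat.eq_zero_or_pos d with h0 | h0
    · subst h0; rw [h.zero, h.zero, cdf_zero, c20_zero]; simp
    · have hd1 : (1 : ℚ) ≤ d := by exact_mod_cast h0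
      have hfirst : 2 * d * n d 0 = cdf d := by
        by_cases h1 : d = 1
        · subst h1; rw [h.line, cdf_one]; norm_num
        · have h2 : 2 ≤ d := by omega
          have hd2 : (2 : ℚ) ≤ d := by exact_mod_cast h2
          have e := h.pts d h2
          have e2 : ∑ x ∈ antidiagonal d, 4 * (x.2 : ℚ) ^ 2 * (x.1 - x.2) * n x.1 1 * n x.2 0 =
              ∑ x ∈ antidiagonal d, ((x.1 : ℚ) - x.2) * x.2 * c20 x.1 * cdf x.2 := by
            apply Finset.sum_congr rfl
            intro x hx
            rw [HasAntidiagonal.mem_antidiagonal] at hx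
            rcases Nat.eq_zero_or_pos x.1 with hx1 | hx1
            · rw [hx1, h.zero, c20_zero]; ring
            · rcases Nat.eq_zero_or_pos x.2 with hx2 | hx2
              · rw [hx2, h.zero, cdf_zero]; simp
              · have i1 := (ih x.1 (by omega)).2
                have i2 := (ih x.2 (by omega)).1
                rw [← i1, ← i2]; ring
          rw [e2, cdf_rec] at e
          have h3 : ((2 * d - 1) * (2 * d - 2) : ℚ) ≠ 0 := by
            have a2 : (0 : ℚ) < 2 * d - 1 := by linarith
            have a3 : (0 : ℚ) < 2 * d - 2 := by linarith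
            positivity
          apply mul_left_cancel₀ h3
          linarith
      refine ⟨hfirst, ?_⟩
      have e := h.rec' d 0 (by omega)
      have e2 : ∑ x ∈ antidiagonal d, ∑ y ∈ antidiagonal (0 + 1),
          (x.1 : ℚ) ^ 3 * n x.1 y.1 * (2 * y.2 * (2 * y.2 - 1) * n x.2 y.2) =
          (1 / 2) * ∑ x ∈ antidiagonal d, (x.1 : ℚ) ^ 2 * cdf x.1 * c20 x.2 := by
        rw [Finset.mul_sum]
        apply Finset.sum_congr rfl
        intro x hx
        rw [HasAntidiagonal.mem_antidiagonal] at hx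
        rw [zero_add, sum_anti_one]
        push_cast
        rcases Nat.eq_zero_or_pos x.1 with hx1 | hx1
        · rw [hx1]; simp [h.zero]
        · rcases Nat.eq_zero_or_pos x.2 with hx2 | hx2
          · rw [hx2, h.zero, h.zero, c20_zero]; simp
          · have i1 := (ih x.2 (by omega)).2
            have i2 := (ih x.1 (by omega)).1
            rw [← i1, ← i2]; ring
      rw [e2, c20_rec, ← hfirst] at e
      have h3 : ((2 * d - 1) : ℚ) ≠ 0 := by
        have a2 : (0 : ℚ) < 2 * d - 1 := by linarith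
        positivity
      apply mul_left_cancel₀ h3
      rw [zero_add] at e
      push_cast at e
      linear_combination e

/-- All the numbers are nonnegative. -/
theorem Hub.nonneg {n : ℕ → ℕ → ℚ} (h : Hub n) (d p : ℕ) : 0 ≤ n d p := by
  induction d using Nat.strong_induction_on generalizing p with
  | _ d ih =>
    rcases Nat.eq_zero_or_pos d with h0 | h0
    · subst h0; rw [h.zero]
    · have hd1 : (1 : ℚ) ≤ d := by exact_mod_cast h0
      induction p with
      | zero =>
        have := (h.link d).1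
        have h1 := cdf_nonneg d
        by_contra hc
        push Not at hc
        have : 2 * (d : ℚ) * n d 0 < 0 := mul_neg_of_pos_of_neg (by positivity) hc
        linarith
      | succ p ihp =>
        by_cases hp : p + 1 ≤ 2 * d
        · have e := h.rec' d p hp
          have hp' : (p : ℚ) + 1 ≤ 2 * d := by exact_mod_cast hp
          have hpos : (0 : ℚ) < (2 * d - 1) * (2 * p + 2) * (2 * p + 1) := by
            have a2 : (0 : ℚ) < 2 * d - 1 := by linarith
            positivity
          have hsum : 0 ≤ ∑ x ∈ antidiagonal d, ∑ y ∈ antidiagonal (p + 1),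
              (x.1 : ℚ) ^ 3 * n x.1 y.1 * (2 * y.2 * (2 * y.2 - 1) * n x.2 y.2) := by
            apply Finset.sum_nonneg
            intro x hx
            apply Finset.sum_nonneg
            intro y _
            rw [HasAntidiagonal.mem_antidiagonal] at hx
            have hy : (0 : ℚ) ≤ 2 * y.2 * (2 * y.2 - 1) := by
              rcases Nat.eq_zero_or_pos y.2 with hy | hy
              · rw [hy]; simp
              · have : (1 : ℚ) ≤ y.2 := by exact_mod_cast hy
                have : (0 : ℚ) ≤ 2 * y.2 - 1 := by linarith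
                positivity
            rcases Nat.eq_zero_or_pos x.1 with hx1 | hx1
            · rw [hx1]; simp
            · rcases Nat.eq_zero_or_pos x.2 with hx2 | hx2
              · rw [hx2, h.zero (p := y.2)]; simp
              · have i1 := ih x.1 (by omega) y.1
                have i2 := ih x.2 (by omega) y.2
                positivity
          have h2 : (0 : ℚ) ≤ d * (2 * d - p) * (2 * d + p - 1) * n d p := by
            have a1 : (0 : ℚ) ≤ 2 * d - p := by linarith
            have a2 : (0 : ℚ) ≤ 2 * d + p - 1 := by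
              have : (0 : ℚ) ≤ p := by positivity
              linarith
            positivity
          by_contra hc
          push Not at hc
          have := mul_neg_of_pos_of_neg hpos hc
          linarith
        · rw [h.range _ _ (by omega)]

end Pool.Agent.MP_4d4b4c_ag
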