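import Mathlib

/-!
Genus-zero numbers of the quadric surface `ℙ¹ × ℙ¹` (an auxiliary array of nonnegative numbers),
used to prove that the numbers of `ℙ³` with point conditions only are nonnegative.
-/

set_option autoImplicit false

namespace Pool.Agent.MP_4d4b4c_ag

open MvPowerSeries Finset

/-! ### The array -/

def mstep (T : ℕ → ℕ → ℚ) (a b : ℕ) : ℚ :=
  if a = 0 ∨ b = 0 then (if a + b = 1 then 1 else 0) else
    (∑ x ∈ antidiagonal a, ∑ y ∈ antidiagonal b,
      (x.1 : ℚ) ^ 2 * y.2 ^ 2 * (x.1 * y.2 - x.2 * y.1) * T x.1 y.1 * T x.2 y.2) /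
      (2 * a * b * (2 * a + 2 * b - 1))

def mtab : ℕ → ℕ → ℕ → ℚ
  | 0 => fun _ _ => 0
  | S + 1 => fun a b => if a + b = S + 1 then mstep (mtab S) a b else mtab S a b

def mm (a b : ℕ) : ℚ := mtab (a + b) a b

lemma mtab_succ (S a b : ℕ) :
    mtab (S + 1) a b = if a + b = S + 1 then mstep (mtab S) a b else mtab S a b := rfl

lemma mtab_eq (S a b : ℕ) (h : a + b ≤ S) : mtab S a b = mm a b := by
  induction S with
  | zero => have h1 : a = 0 := by omega
            have h2 : b = 0 := by omega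
            subst h1; subst h2; rfl
  | succ S ih =>
    by_cases hd : a + b = S + 1
    · rw [mm, hd]
    · rw [mtab_succ, if_neg hd]; exact ih (by omega)

lemma mm_zero : mm 0 0 = 0 := rfl

lemma mm_step (a b : ℕ) (h : 1 ≤ a + b) : mm a b = mstep (mtab (a + b - 1)) a b := by
  obtain ⟨S, hS⟩ : ∃ S, a + b = S + 1 := ⟨a + b - 1, by omega⟩
  rw [mm, hS, mtab_succ, if_pos hS]; rfl

lemma mm_edge (a b : ℕ) (h : a = 0 ∨ b = 0) : mm a b = if a + b = 1 then 1 else 0 := by
  by_cases h1 : 1 ≤ a + b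
  · rw [mm_step a b h1, mstep, if_pos h]
  · have h2 : a = 0 := by omega
    have h3 : b = 0 := by omega
    subst h2; subst h3; rw [mm_zero]; simp

lemma mtab_mul (a b : ℕ) (hab : 1 ≤ a + b) (x y : ℕ × ℕ) (hx : x ∈ antidiagonal a)
    (hy : y ∈ antidiagonal b) :
    mtab (a + b - 1) x.1 y.1 * mtab (a + b - 1) x.2 y.2 = mm x.1 y.1 * mm x.2 y.2 := by
  rw [HasAntidiagonal.mem_antidiagonal] at hx hy
  by_cases h1 : x.1 + y.1 ≤ a + b - 1
  · by_cases h2 : x.2 + y.2 ≤ a + b - 1
    · rw [mtab_eq _ _ _ h1, mtab_eq _ _ _ h2]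
    · have e1 : x.1 = 0 := by omega
      have e2 : y.1 = 0 := by omega
      rw [e1, e2, mtab_eq _ _ _ (by omega), mm_zero, zero_mul, zero_mul]
  · have e1 : x.2 = 0 := by omega
    have e2 : y.2 = 0 := by omega
    rw [e1, e2, mtab_eq _ 0 0 (by omega), mm_zero, mul_zero, mul_zero]

lemma mm_rec (a b : ℕ) (ha : 1 ≤ a) (hb : 1 ≤ b) :
    2 * a * b * (2 * a + 2 * b - 1) * mm a b =
    ∑ x ∈ antidiagonal a, ∑ y ∈ antidiagonal b,
      (x.1 : ℚ) ^ 2 * y.2 ^ 2 * (x.1 * y.2 - x.2 * y.1) * (mm x.1 y.1 * mm x.2 y.2) := by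
  rw [mm_step a b (by omega), mstep, if_neg (by omega)]
  have ha' : (1 : ℚ) ≤ a := by exact_mod_cast ha
  have hb' : (1 : ℚ) ≤ b := by exact_mod_cast hb
  have h1 : (2 * a * b * (2 * a + 2 * b - 1) : ℚ) ≠ 0 := by
    have a2 : (0 : ℚ) < 2 * a + 2 * b - 1 := by linarith
    positivity
  rw [mul_div_cancel₀ _ h1]
  apply Finset.sum_congr rfl
  intro x hx
  apply Finset.sum_congr rfl
  intro y hy
  rw [mul_assoc, mtab_mul a b (by omega) x y hx hy]

lemma mm_symm (a b : ℕ) : mm a b = mm b a := by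
  have key : ∀ n a b, a + b = n → mm a b = mm b a := by
    intro n
    induction n using Nat.strong_induction_on with
    | _ n ih =>
      intro a b hab
      by_cases h : a = 0 ∨ b = 0
      · rw [mm_edge a b h, mm_edge b a h.symm, add_comm]
      · have ha : 1 ≤ a := by omega
        have hb : 1 ≤ b := by omega
        have e1 := mm_rec a b ha hb
        have e2 := mm_rec b a hb ha
        have ha' : (1 : ℚ) ≤ a := by exact_mod_cast ha
        have hb' : (1 : ℚ) ≤ b := by exact_mod_cast hb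
        have h1 : (2 * a * b * (2 * a + 2 * b - 1) : ℚ) ≠ 0 := by
          have a2 : (0 : ℚ) < 2 * a + 2 * b - 1 := by linarith
          positivity
        apply mul_left_cancel₀ h1
        rw [e1]
        have e3 : (2 * a * b * (2 * a + 2 * b - 1) : ℚ) * mm b a =
            2 * b * a * (2 * b + 2 * a - 1) * mm b a := by ring
        rw [e3, e2, Finset.sum_comm]
        rw [← Finset.Nat.sum_antidiagonal_swap]
        apply Finset.sum_congr rfl
        intro y hy
        rw [← Finset.Nat.sum_antidiagonal_swap]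
        apply Finset.sum_congr rfl
        intro x hx
        simp only [Prod.fst_swap, Prod.snd_swap]
        rw [HasAntidiagonal.mem_antidiagonal] at hx hy
        have hm : mm x.2 y.2 * mm x.1 y.1 = mm y.2 x.2 * mm y.1 x.1 := by
          by_cases h1 : x.1 + y.1 < n
          · by_cases h2 : x.2 + y.2 < n
            · rw [ih _ h1 _ _ rfl, ih _ h2 _ _ rfl]
            · have e1 : x.1 = 0 := by omega
              have e2 : y.1 = 0 := by omega
              rw [e1, e2, mm_zero, mul_zero, mul_zero]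
          · have e1 : x.2 = 0 := by omega
            have e2 : y.2 = 0 := by omega
            rw [e1, e2, mm_zero, zero_mul, zero_mul]
        rw [hm]
        ring
  exact key _ a b rfl

lemma mm_nonneg (a b : ℕ) : 0 ≤ mm a b := by
  have key : ∀ n a b, a + b = n → 0 ≤ mm a b := by
    intro n
    induction n using Nat.strong_induction_on with
    | _ n ih =>
      intro a b hab
      by_cases h : a = 0 ∨ b = 0
      · rw [mm_edge a b h]; split_ifs <;> norm_num
      · have ha : 1 ≤ a := by omega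
        have hb : 1 ≤ b := by omega
        have e1 := mm_rec a b ha hb
        have ha' : (1 : ℚ) ≤ a := by exact_mod_cast ha
        have hb' : (1 : ℚ) ≤ b := by exact_mod_cast hb
        have h1 : (0 : ℚ) < (2 * a * b * (2 * a + 2 * b - 1) : ℚ) := by
          have a2 : (0 : ℚ) < 2 * a + 2 * b - 1 := by linarith
          positivity
        have e1' : 2 * a * b * (2 * a + 2 * b - 1) * mm a b =
            ∑ x ∈ antidiagonal a, ∑ y ∈ antidiagonal b,
            (x.2 : ℚ) ^ 2 * y.1 ^ 2 * (x.2 * y.1 - x.1 * y.2) * (mm x.2 y.2 * mm x.1 y.1) := by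
          rw [e1, ← Finset.Nat.sum_antidiagonal_swap]
          apply Finset.sum_congr rfl
          intro x _
          rw [← Finset.Nat.sum_antidiagonal_swap]
          rfl
        have e2 : 2 * (2 * a * b * (2 * a + 2 * b - 1) * mm a b) =
            ∑ x ∈ antidiagonal a, ∑ y ∈ antidiagonal b,
            ((x.1 : ℚ) * y.2 - x.2 * y.1) ^ 2 * (x.1 * y.2 + x.2 * y.1) *
              (mm x.1 y.1 * mm x.2 y.2) := by
          rw [two_mul]
          nth_rewrite 2 [e1']
          rw [e1, ← Finset.sum_add_distrib]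
          apply Finset.sum_congr rfl
          intro x _
          rw [← Finset.sum_add_distrib]
          apply Finset.sum_congr rfl
          intro y _
          ring
        have e3 : 0 ≤ ∑ x ∈ antidiagonal a, ∑ y ∈ antidiagonal b,
            ((x.1 : ℚ) * y.2 - x.2 * y.1) ^ 2 * (x.1 * y.2 + x.2 * y.1) *
              (mm x.1 y.1 * mm x.2 y.2) := by
          apply Finset.sum_nonneg
          intro x hx
          apply Finset.sum_nonneg
          intro y hy
          rw [HasAntidiagonal.mem_antidiagonal] at hx hy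
          have hm : 0 ≤ mm x.1 y.1 * mm x.2 y.2 := by
            by_cases h1 : x.1 + y.1 < n
            · by_cases h2 : x.2 + y.2 < n
              · exact mul_nonneg (ih _ h1 _ _ rfl) (ih _ h2 _ _ rfl)
              · have e1 : x.1 = 0 := by omega
                have e2 : y.1 = 0 := by omega
                rw [e1, e2, mm_zero, zero_mul]
            · have e1 : x.2 = 0 := by omega
              have e2 : y.2 = 0 := by omega
              rw [e1, e2, mm_zero, mul_zero]
          positivity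
        by_contra hc
        push Not at hc
        have : (2 * a * b * (2 * a + 2 * b - 1) : ℚ) * mm a b < 0 :=
          mul_neg_of_pos_of_neg h1 hc
        linarith
  exact key _ a b rfl

/-! ### Power series -/

abbrev QS : Type := MvPowerSeries (Fin 2) ℚ

noncomputable def jx (a b : ℕ) : Fin 2 →₀ ℕ := Finsupp.equivFunOnFinite.symm ![a, b]

@[simp] lemma jx_zero (a b : ℕ) : jx a b 0 = a := rfl
@[simp] lemma jx_one (a b : ℕ) : jx a b 1 = b := rfl

lemma jx_eta (m : Fin 2 →₀ ℕ) : jx (m 0) (m 1) = m := by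
  ext i; fin_cases i <;> rfl

lemma jx_add (a b a' b' : ℕ) : jx a b + jx a' b' = jx (a + a') (b + b') := by
  ext i; fin_cases i <;> rfl

lemma jx_inj {a b a' b' : ℕ} : jx a b = jx a' b' ↔ a = a' ∧ b = b' := by
  constructor
  · intro h
    refine ⟨?_, ?_⟩
    · simpa using DFunLike.congr_fun h 0
    · simpa using DFunLike.congr_fun h 1
  · rintro ⟨rfl, rfl⟩; rfl

lemma jsingle_zero : (Finsupp.single (0 : Fin 2) 1 : Fin 2 →₀ ℕ) = jx 1 0 := by
  ext i; fin_cases i <;> simp [jx]

lemma jsingle_one : (Finsupp.single (1 : Fin 2) 1 : Fin 2 →₀ ℕ) = jx 0 1 := by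
  ext i; fin_cases i <;> simp [jx]

noncomputable def qo (f : QS) (a b : ℕ) : ℚ := coeff (jx a b) f

lemma qo_ext {f g : QS} (h : ∀ a b, qo f a b = qo g a b) : f = g := by
  ext m
  have := h (m 0) (m 1)
  simpa [qo, jx_eta] using this

@[simp] lemma qo_add (f g : QS) (a b : ℕ) : qo (f + g) a b = qo f a b + qo g a b := by
  simp [qo]
@[simp] lemma qo_sub (f g : QS) (a b : ℕ) : qo (f - g) a b = qo f a b - qo g a b := by
  simp [qo]
@[simp] lemma qo_zero (a b : ℕ) : qo 0 a b = 0 := by
  simp [qo]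
lemma qo_natCast_mul (n : ℕ) (f : QS) (a b : ℕ) : qo ((n : QS) * f) a b = n * qo f a b := by
  have : ((n : QS)) = C (n : ℚ) := by simp
  rw [qo, this, coeff_C_mul]; rfl
@[simp] lemma qo_two_mul (f : QS) (a b : ℕ) : qo (2 * f) a b = 2 * qo f a b :=
  qo_natCast_mul 2 f a b
@[simp] lemma qo_three_mul (f : QS) (a b : ℕ) : qo (3 * f) a b = 3 * qo f a b :=
  qo_natCast_mul 3 f a b

/-- `u ∂/∂u`. -/
noncomputable def EA : Derivation ℚ QS QS := (X 0 : QS) • pderiv ℚ 0
/-- `v ∂/∂v`. -/
noncomputable def EB : Derivation ℚ QS QS := (X 1 : QS) • pderiv ℚ 1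

lemma qX_eq_monomial (i : Fin 2) : (X i : QS) = monomial (Finsupp.single i 1) 1 := rfl

@[simp] lemma qo_EA (f : QS) (a b : ℕ) : qo (EA f) a b = a * qo f a b := by
  have h0 : EA f = X 0 * pderiv ℚ 0 f := rfl
  rw [h0]
  cases a with
  | zero =>
    rw [qo, qX_eq_monomial, coeff_monomial_mul, if_neg]
    · simp
    · intro h
      have := h 0
      simp at this
  | succ a =>
    have h : jx (a + 1) b = jx 1 0 + jx a b := by rw [jx_add]; congr 1 <;> ring
    rw [qo, qX_eq_monomial, h, jsingle_zero, coeff_add_monomial_mul, one_mul, coeff_pderiv,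
      jsingle_zero, add_comm (jx a b), ← h]
    simp [qo, mul_comm]

@[simp] lemma qo_EB (f : QS) (a b : ℕ) : qo (EB f) a b = b * qo f a b := by
  have h0 : EB f = X 1 * pderiv ℚ 1 f := rfl
  rw [h0]
  cases b with
  | zero =>
    rw [qo, qX_eq_monomial, coeff_monomial_mul, if_neg]
    · simp
    · intro h
      have := h 1
      simp at this
  | succ b =>
    have h : jx a (b + 1) = jx 0 1 + jx a b := by rw [jx_add]; congr 1 <;> ring
    rw [qo, qX_eq_monomial, h, jsingle_one, coeff_add_monomial_mul, one_mul, coeff_pderiv,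
      jsingle_one, add_comm (jx a b), ← h]
    simp [qo, mul_comm]

lemma EBA (f : QS) : EB (EA f) = EA (EB f) := by
  apply qo_ext; intro a b; simp only [qo_EA, qo_EB]; ring

lemma qo_mul (f g : QS) (a b : ℕ) :
    qo (f * g) a b = ∑ x ∈ antidiagonal a, ∑ y ∈ antidiagonal b,
      qo f x.1 y.1 * qo g x.2 y.2 := by
  classical
  rw [qo, coeff_mul]
  rw [← Finset.sum_product']
  symm
  refine Finset.sum_nbij' (fun t => (jx t.1.1 t.2.1, jx t.1.2 t.2.2))
    (fun m => ((m.1 0, m.2 0), (m.1 1, m.2 1))) ?_ ?_ ?_ ?_ ?_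
  · rintro ⟨⟨a1, a2⟩, ⟨b1, b2⟩⟩ h
    simp only [mem_product, HasAntidiagonal.mem_antidiagonal] at h ⊢
    rw [jx_add, jx_inj]; exact ⟨h.1, h.2⟩
  · rintro ⟨m1, m2⟩ h
    simp only [mem_product, HasAntidiagonal.mem_antidiagonal] at h ⊢
    refine ⟨?_, ?_⟩
    · simpa using DFunLike.congr_fun h 0
    · simpa using DFunLike.congr_fun h 1
  · rintro ⟨⟨a1, a2⟩, ⟨b1, b2⟩⟩ h
    rfl
  · rintro ⟨m1, m2⟩ h
    simp only [jx_eta]
  · rintro ⟨⟨a1, a2⟩, ⟨b1, b2⟩⟩ h
    rfl

/-- Generating function of the array. -/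
noncomputable def GG : QS := fun m => mm (m 0) (m 1)

@[simp] lemma qo_GG (a b : ℕ) : qo GG a b = mm a b := rfl

noncomputable def HH : QS := 2 * (EA GG + EB GG) - GG
noncomputable def KK : QS := 2 * (EA HH + EB HH) - 2 * HH
noncomputable def LL : QS := 2 * (EA KK + EB KK) - 3 * KK

lemma qo_HH (a b : ℕ) : qo HH a b = (2 * a + 2 * b - 1) * mm a b := by
  simp only [HH, qo_add, qo_sub, qo_two_mul, qo_EA, qo_EB, qo_GG]; ring
lemma qo_KK (a b : ℕ) : qo KK a b = (2 * a + 2 * b - 2) * (2 * a + 2 * b - 1) * mm a b := by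
  simp only [KK, qo_add, qo_sub, qo_two_mul, qo_EA, qo_EB, qo_HH]; ring

noncomputable def v1 : QS :=
  EA (EA (EA GG)) * EB (EB (EB GG)) - EA (EA (EB GG)) * EA (EB (EB GG)) - 2 * EA (EB HH)
noncomputable def v2 : QS :=
  EA (EA (EA GG)) * EB (EB HH) - EA KK - EA (EB (EB GG)) * EA (EA HH)
noncomputable def v3 : QS :=
  EB KK + EA (EA (EB GG)) * EB (EB HH) - EB (EB (EB GG)) * EA (EA HH)
noncomputable def v4 : QS :=
  EA (EA (EA GG)) * EB KK + EA (EA (EB GG)) * EA KK - 2 * (EA (EA HH) * EA (EB HH))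
noncomputable def v5 : QS :=
  LL + EA (EA (EB GG)) * EB KK + EA (EB (EB GG)) * EA KK - EA (EB HH) * EA (EB HH)
    - EB (EB HH) * EA (EA HH)
noncomputable def v6 : QS :=
  EA (EB (EB GG)) * EB KK + EB (EB (EB GG)) * EA KK - 2 * (EA (EB HH) * EB (EB HH))

lemma qjac4 : v4 = EA (EA (EA GG)) * v3 - EA (EA (EB GG)) * v2 + EA (EA HH) * v1 := by
  simp only [v1, v2, v3, v4]; ring

lemma qjac6 : v6 = EA (EB (EB GG)) * v3 - EB (EB (EB GG)) * v2 + EB (EB HH) * v1 := by
  simp only [v1, v2, v3, v6]; ring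

lemma qder_two (D : Derivation ℚ QS QS) : D (2 : QS) = 0 := by
  have h := D.map_natCast 2
  exact_mod_cast h

lemma qder_three (D : Derivation ℚ QS QS) : D (3 : QS) = 0 := by
  have h := D.map_natCast 3
  exact_mod_cast h

lemma v1_eq : v1 = 0 := by
  apply qo_ext
  intro a b
  rw [v1, qo_sub, qo_sub, qo_two_mul, qo_mul, qo_mul]
  simp only [qo_EA, qo_EB, qo_GG, qo_HH, qo_zero]
  by_cases h : a = 0 ∨ b = 0
  · have e1 : ∑ x ∈ antidiagonal a, ∑ y ∈ antidiagonal b, (x.1 : ℚ) * (x.1 * (x.1 * mm x.1 y.1)) *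
        (y.2 * (y.2 * (y.2 * mm x.2 y.2))) = 0 := by
      apply Finset.sum_eq_zero; intro x hx
      apply Finset.sum_eq_zero; intro y hy
      rw [HasAntidiagonal.mem_antidiagonal] at hx hy
      rcases h with h | h
      · have : x.1 = 0 := by omega
        rw [this]; simp
      · have : y.2 = 0 := by omega
        rw [this]; simp
    have e2 : ∑ x ∈ antidiagonal a, ∑ y ∈ antidiagonal b, (x.1 : ℚ) * (x.1 * (y.1 * mm x.1 y.1)) *
        (x.2 * (y.2 * (y.2 * mm x.2 y.2))) = 0 := by
      apply Finset.sum_eq_zero; intro x hx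
      apply Finset.sum_eq_zero; intro y hy
      rw [HasAntidiagonal.mem_antidiagonal] at hx hy
      rcases h with h | h
      · have : x.1 = 0 := by omega
        rw [this]; simp
      · have : y.2 = 0 := by omega
        rw [this]; simp
    rw [e1, e2]
    rcases h with h | h <;> subst h <;> simp
  · have := mm_rec a b (by omega) (by omega)
    rw [← Finset.sum_sub_distrib]
    have e : ∑ x ∈ antidiagonal a,
        ((∑ y ∈ antidiagonal b, (x.1 : ℚ) * (x.1 * (x.1 * mm x.1 y.1)) *
          (y.2 * (y.2 * (y.2 * mm x.2 y.2)))) -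
        ∑ y ∈ antidiagonal b, (x.1 : ℚ) * (x.1 * (y.1 * mm x.1 y.1)) *
          (x.2 * (y.2 * (y.2 * mm x.2 y.2)))) =
        2 * a * b * (2 * a + 2 * b - 1) * mm a b := by
      rw [this]
      apply Finset.sum_congr rfl
      intro x _
      rw [← Finset.sum_sub_distrib]
      apply Finset.sum_congr rfl
      intro y _
      ring
    rw [e]; ring

lemma qbia1 : EA v3 - EB v2 + (2 * (EA v1 + EB v1) - 2 * v1) = 0 := by
  simp only [v1, v2, v3, KK, HH, map_add, map_sub, Derivation.leibniz, smul_eq_mul, EBA,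
    qder_two, map_zero]
  ring

lemma qbia2 : EA v5 - EB v4 + (2 * (EA v2 + EB v2) - 3 * v2) = 0 := by
  simp only [v2, v4, v5, LL, KK, HH, map_add, map_sub, Derivation.leibniz, smul_eq_mul, EBA,
    qder_two, qder_three, map_zero]
  ring

lemma qbia3 : EA v6 - EB v5 + (2 * (EA v3 + EB v3) - 3 * v3) = 0 := by
  simp only [v3, v6, v5, LL, KK, HH, map_add, map_sub, Derivation.leibniz, smul_eq_mul, EBA,
    qder_two, qder_three, map_zero]
  ring

end Pool.Agent.MP_4d4b4c_ag
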