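import Pool.Agent.MP_4d4b4c_ag.Quad
import Pool.Agent.MP_4d4b4c_ag.Exist

set_option autoImplicit false

namespace Pool.Agent.MP_4d4b4c_ag

open MvPowerSeries Finset

/-- `f` has no monomials of total degree `< n`. -/
def QVan (n : ℕ) (f : QS) : Prop := ∀ a b, a + b < n → qo f a b = 0

lemma QVan.qo_mul {n : ℕ} {f g : QS} (hf : QVan 1 f) (hg : QVan n g) (a b : ℕ)
    (hd : a + b ≤ n) : qo (f * g) a b = 0 := by
  rw [Pool.Agent.MP_4d4b4c_ag.qo_mul]
  apply Finset.sum_eq_zero
  intro x hx
  apply Finset.sum_eq_zero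
  intro y hy
  rw [HasAntidiagonal.mem_antidiagonal] at hx hy
  rcases Nat.eq_zero_or_pos (x.1 + y.1) with h | h
  · rw [hf _ _ (by omega), zero_mul]
  · rw [hg _ _ (by omega), mul_zero]

lemma QVan.ea {n : ℕ} {f : QS} (h : QVan n f) : QVan n (EA f) := by
  intro a b hd; rw [qo_EA, h _ _ hd, mul_zero]
lemma QVan.eb {n : ℕ} {f : QS} (h : QVan n f) : QVan n (EB f) := by
  intro a b hd; rw [qo_EB, h _ _ hd, mul_zero]

lemma qvan_GG : QVan 1 GG := by
  intro a b h
  have h1 : a = 0 := by omega
  have h2 : b = 0 := by omega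
  subst h1; subst h2; rw [qo_GG, mm_zero]

lemma qvan_HH : QVan 1 HH := by
  intro a b h
  rw [qo_HH]
  have h1 : a = 0 := by omega
  have h2 : b = 0 := by omega
  subst h1; subst h2; rw [mm_zero, mul_zero]

theorem v2_eq : v2 = 0 := by
  have key : ∀ n, ∀ a b, a + b = n → qo v2 a b = 0 ∧ qo v3 a b = 0 := by
    intro n
    induction n using Nat.strong_induction_on with
    | _ n ih =>
      have w2 : QVan n v2 := fun a b hd => (ih _ hd a b rfl).1
      have w3 : QVan n v3 := fun a b hd => (ih _ hd a b rfl).2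
      intro a b hab
      have e4 : qo v4 a b = 0 := by
        rw [qjac4, v1_eq, mul_zero, add_zero, qo_sub,
          qvan_GG.ea.ea.ea.qo_mul w3 a b hab.le, qvan_GG.eb.ea.ea.qo_mul w2 a b hab.le]
        ring
      have e6 : qo v6 a b = 0 := by
        rw [qjac6, v1_eq, mul_zero, add_zero, qo_sub,
          qvan_GG.eb.eb.ea.qo_mul w3 a b hab.le, qvan_GG.eb.eb.eb.qo_mul w2 a b hab.le]
        ring
      have b1 : a * qo v3 a b = b * qo v2 a b := by
        have := congrArg (fun f => qo f a b) qbia1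
        rw [v1_eq] at this
        simp only [qo_add, qo_sub, qo_EA, qo_EB, qo_two_mul, qo_zero, map_zero] at this
        linarith
      have b2 : a * qo v5 a b = - ((2 * a + 2 * b - 3) * qo v2 a b) := by
        have := congrArg (fun f => qo f a b) qbia2
        simp only [qo_add, qo_sub, qo_EA, qo_EB, qo_two_mul, qo_three_mul, qo_zero, e4] at this
        linarith
      have b3 : b * qo v5 a b = (2 * a + 2 * b - 3) * qo v3 a b := by
        have := congrArg (fun f => qo f a b) qbia3
        simp only [qo_add, qo_sub, qo_EA, qo_EB, qo_two_mul, qo_three_mul, qo_zero, e6] at this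
        linarith
      have hodd : (2 * (a : ℚ) + 2 * b - 3) ≠ 0 := by
        intro h
        have h' : (2 * (a : ℚ) + 2 * b) = 3 := by linarith
        have : 2 * a + 2 * b = 3 := by exact_mod_cast h'
        omega
      rcases Nat.eq_zero_or_pos a with ha | ha
      · subst ha
        constructor
        · -- `v2` has no monomials in `v` alone
          rw [v2, qo_sub, qo_sub, qo_EA]
          have e1 : qo (EA (EA (EA GG)) * EB (EB HH)) 0 b = 0 := by
            rw [Pool.Agent.MP_4d4b4c_ag.qo_mul]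
            apply Finset.sum_eq_zero; intro x hx
            apply Finset.sum_eq_zero; intro y hy
            rw [HasAntidiagonal.mem_antidiagonal] at hx
            have : x.1 = 0 := by omega
            rw [qo_EA, this]; simp
          have e2 : qo (EA (EB (EB GG)) * EA (EA HH)) 0 b = 0 := by
            rw [Pool.Agent.MP_4d4b4c_ag.qo_mul]
            apply Finset.sum_eq_zero; intro x hx
            apply Finset.sum_eq_zero; intro y hy
            rw [HasAntidiagonal.mem_antidiagonal] at hx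
            have : x.1 = 0 := by omega
            rw [qo_EA, this]; simp
          rw [e1, e2]; simp
        · rw [v3, qo_sub, qo_add, qo_EB, qo_KK]
          have e1 : qo (EA (EA (EB GG)) * EB (EB HH)) 0 b = 0 := by
            rw [Pool.Agent.MP_4d4b4c_ag.qo_mul]
            apply Finset.sum_eq_zero; intro x hx
            apply Finset.sum_eq_zero; intro y hy
            rw [HasAntidiagonal.mem_antidiagonal] at hx
            have : x.1 = 0 := by omega
            rw [qo_EA, this]; simp
          have e2 : qo (EB (EB (EB GG)) * EA (EA HH)) 0 b = 0 := by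
            rw [Pool.Agent.MP_4d4b4c_ag.qo_mul]
            apply Finset.sum_eq_zero; intro x hx
            apply Finset.sum_eq_zero; intro y hy
            rw [HasAntidiagonal.mem_antidiagonal] at hx
            have : x.2 = 0 := by omega
            rw [qo_EA _ x.2, this]; simp
          rw [e1, e2, mm_edge 0 b (Or.inl rfl)]
          split_ifs with h
          · have : b = 1 := by omega
            subst this; norm_num
          · simp
      · rcases Nat.eq_zero_or_pos b with hb | hb
        · subst hb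
          have ha' : (a : ℚ) ≠ 0 := by positivity
          constructor
          · rw [v2, qo_sub, qo_sub, qo_EA, qo_KK]
            have e1 : qo (EA (EA (EA GG)) * EB (EB HH)) a 0 = 0 := by
              rw [Pool.Agent.MP_4d4b4c_ag.qo_mul]
              apply Finset.sum_eq_zero; intro x hx
              apply Finset.sum_eq_zero; intro y hy
              rw [HasAntidiagonal.mem_antidiagonal] at hy
              have : y.2 = 0 := by omega
              rw [qo_EB _ x.2, this]; simp
            have e2 : qo (EA (EB (EB GG)) * EA (EA HH)) a 0 = 0 := by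
              rw [Pool.Agent.MP_4d4b4c_ag.qo_mul]
              apply Finset.sum_eq_zero; intro x hx
              apply Finset.sum_eq_zero; intro y hy
              rw [HasAntidiagonal.mem_antidiagonal] at hy
              have : y.1 = 0 := by omega
              rw [qo_EA, qo_EB, this]; simp
            rw [e1, e2, mm_edge a 0 (Or.inr rfl)]
            split_ifs with h
            · have : a = 1 := by omega
              subst this; norm_num
            · simp
          · have : a * qo v3 a 0 = 0 := by rw [b1]; simp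
            exact (mul_eq_zero.mp this).resolve_left ha'
        · have ha' : (a : ℚ) ≠ 0 := by positivity
          have hb' : (b : ℚ) ≠ 0 := by positivity
          have e : (2 * (a : ℚ) + 2 * b - 3) * (a * qo v3 a b) = 0 := by
            linear_combination (-a / 2 : ℚ) * b3 + (b / 2 : ℚ) * b2
              + (2 * (a : ℚ) + 2 * b - 3) / 2 * b1
          have e3 := (mul_eq_zero.mp e).resolve_left hodd
          have e2 : (b : ℚ) * qo v2 a b = 0 := by rw [← b1, e3]
          exact ⟨(mul_eq_zero.mp e2).resolve_left hb', (mul_eq_zero.mp e3).resolve_left ha'⟩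
  apply qo_ext
  intro a b
  rw [qo_zero]
  exact (key _ a b rfl).1

/-! ### Restriction to the diagonal -/

/-- Substitution `u = v = w`. -/
noncomputable def dg (f : QS) : PowerSeries ℚ :=
  PowerSeries.mk fun n => ∑ x ∈ antidiagonal n, qo f x.1 x.2

lemma coeff_dg (f : QS) (n : ℕ) :
    PowerSeries.coeff n (dg f) = ∑ x ∈ antidiagonal n, qo f x.1 x.2 := by
  rw [dg, PowerSeries.coeff_mk]

lemma dg_add (f g : QS) : dg (f + g) = dg f + dg g := by
  ext n; simp only [coeff_dg, map_add, qo_add, Finset.sum_add_distrib]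
lemma dg_sub (f g : QS) : dg (f - g) = dg f - dg g := by
  ext n; simp only [coeff_dg, map_sub, qo_sub, Finset.sum_sub_distrib]
lemma dg_zero : dg 0 = 0 := by
  ext n; simp only [coeff_dg, map_zero, qo_zero, Finset.sum_const_zero]
lemma dg_two_mul (f : QS) : dg (2 * f) = 2 * dg f := by
  rw [two_mul, two_mul, dg_add]

lemma dg_mul (f g : QS) : dg (f * g) = dg f * dg g := by
  ext n
  rw [PowerSeries.coeff_mul, coeff_dg]
  simp only [coeff_dg, qo_mul, Finset.sum_mul_sum]
  -- reindex
  have h1 : ∑ x ∈ antidiagonal n, ∑ y ∈ antidiagonal x.1, ∑ z ∈ antidiagonal x.2,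
      qo f y.1 z.1 * qo g y.2 z.2 =
      ∑ t ∈ (antidiagonal n).sigma (fun x => antidiagonal x.1 ×ˢ antidiagonal x.2),
        qo f t.2.1.1 t.2.2.1 * qo g t.2.1.2 t.2.2.2 := by
    rw [Finset.sum_sigma]
    apply Finset.sum_congr rfl
    intro x _
    rw [Finset.sum_product]
  have h2 : ∑ x ∈ antidiagonal n, ∑ i ∈ antidiagonal x.1, ∑ j ∈ antidiagonal x.2,
      qo f i.1 i.2 * qo g j.1 j.2 =
      ∑ t ∈ (antidiagonal n).sigma (fun x => antidiagonal x.1 ×ˢ antidiagonal x.2),
        qo f t.2.1.1 t.2.1.2 * qo g t.2.2.1 t.2.2.2 := by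
    rw [Finset.sum_sigma]
    apply Finset.sum_congr rfl
    intro x _
    rw [Finset.sum_product]
  rw [h1, h2]
  refine Finset.sum_nbij'
    (fun t => ⟨(t.2.1.1 + t.2.2.1, t.2.1.2 + t.2.2.2), ((t.2.1.1, t.2.2.1), (t.2.1.2, t.2.2.2))⟩)
    (fun t => ⟨(t.2.1.1 + t.2.2.1, t.2.1.2 + t.2.2.2), ((t.2.1.1, t.2.2.1), (t.2.1.2, t.2.2.2))⟩)
    ?_ ?_ ?_ ?_ ?_
  · rintro ⟨⟨n1, n2⟩, ⟨⟨a, b⟩, ⟨c, e⟩⟩⟩ h
    simp only [mem_sigma, mem_product, HasAntidiagonal.mem_antidiagonal] at h ⊢
    have h1 : n1 + n2 = n := h.1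
    have h2 : a + b = n1 := h.2.1
    have h3 : c + e = n2 := h.2.2
    exact ⟨by omega, trivial, trivial⟩
  · rintro ⟨⟨n1, n2⟩, ⟨⟨a, b⟩, ⟨c, e⟩⟩⟩ h
    simp only [mem_sigma, mem_product, HasAntidiagonal.mem_antidiagonal] at h ⊢
    have h1 : n1 + n2 = n := h.1
    have h2 : a + b = n1 := h.2.1
    have h3 : c + e = n2 := h.2.2
    exact ⟨by omega, trivial, trivial⟩
  · rintro ⟨⟨n1, n2⟩, ⟨⟨a, b⟩, ⟨c, e⟩⟩⟩ h
    simp only [mem_sigma, mem_product, HasAntidiagonal.mem_antidiagonal] at h ⊢
    obtain ⟨h1, h2, h3⟩ := h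
    subst h2; subst h3; rfl
  · rintro ⟨⟨n1, n2⟩, ⟨⟨a, b⟩, ⟨c, e⟩⟩⟩ h
    simp only [mem_sigma, mem_product, HasAntidiagonal.mem_antidiagonal] at h ⊢
    obtain ⟨h1, h2, h3⟩ := h
    subst h2; subst h3; rfl
  · rintro ⟨⟨n1, n2⟩, ⟨⟨a, b⟩, ⟨c, e⟩⟩⟩ h
    rfl

/-- `w d/dw` on one-variable power series. -/
noncomputable def TH : Derivation ℚ (PowerSeries ℚ) (PowerSeries ℚ) :=
  (PowerSeries.X : PowerSeries ℚ) • PowerSeries.derivative ℚ

lemma coeff_TH (f : PowerSeries ℚ) (n : ℕ) :
    PowerSeries.coeff n (TH f) = n * PowerSeries.coeff n f := by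
  have h0 : TH f = PowerSeries.X * PowerSeries.derivative ℚ f := rfl
  rw [h0]
  cases n with
  | zero => simp
  | succ n =>
    rw [PowerSeries.coeff_succ_X_mul, PowerSeries.coeff_derivative]
    push_cast; ring

lemma TH_dg (f : QS) : TH (dg f) = dg (EA f) + dg (EB f) := by
  ext n
  rw [coeff_TH, map_add, coeff_dg, coeff_dg, coeff_dg, ← Finset.sum_add_distrib, Finset.mul_sum]
  apply Finset.sum_congr rfl
  intro x hx
  rw [HasAntidiagonal.mem_antidiagonal] at hx
  rw [qo_EA, qo_EB, ← hx]
  push_cast; ring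

lemma dg_swap {f g : QS} (h : ∀ a b, qo f a b = qo g b a) : dg f = dg g := by
  ext n
  rw [coeff_dg, coeff_dg, ← Finset.Nat.sum_antidiagonal_swap]
  apply Finset.sum_congr rfl
  intro x _
  rw [Prod.fst_swap, Prod.snd_swap, h]

noncomputable def s10 : PowerSeries ℚ := dg (EA GG)
noncomputable def s20 : PowerSeries ℚ := dg (EA (EA GG))
noncomputable def s11 : PowerSeries ℚ := dg (EA (EB GG))
noncomputable def s30 : PowerSeries ℚ := dg (EA (EA (EA GG)))
noncomputable def s21 : PowerSeries ℚ := dg (EA (EA (EB GG)))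
noncomputable def s40 : PowerSeries ℚ := dg (EA (EA (EA (EA GG))))
noncomputable def s31 : PowerSeries ℚ := dg (EA (EA (EA (EB GG))))
noncomputable def s22 : PowerSeries ℚ := dg (EA (EA (EB (EB GG))))

lemma s02 : dg (EB (EB GG)) = s20 := dg_swap (by
  intro a b; simp only [qo_EA, qo_EB, qo_GG, mm_symm a b])
lemma s12 : dg (EA (EB (EB GG))) = s21 := dg_swap (by
  intro a b; simp only [qo_EA, qo_EB, qo_GG, mm_symm a b]; ring)
lemma s03 : dg (EB (EB (EB GG))) = s30 := dg_swap (by
  intro a b; simp only [qo_EA, qo_EB, qo_GG, mm_symm a b])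

lemma TH_s10 : TH s10 = s20 + s11 := by rw [s10, TH_dg, EBA]; rfl
lemma TH_s20 : TH s20 = s30 + s21 := by
  rw [s20, TH_dg, EBA, EBA]; rfl
lemma TH_s11 : TH s11 = 2 * s21 := by
  rw [s11, TH_dg, EBA, s12, two_mul]; rfl
lemma TH_s30 : TH s30 = s40 + s31 := by
  rw [s30, TH_dg, EBA, EBA, EBA]; rfl
lemma TH_s21 : TH s21 = s31 + s22 := by
  rw [s21, TH_dg, EBA, EBA]; rfl

lemma th_two (f : PowerSeries ℚ) : TH (2 * f) = 2 * TH f := by
  rw [two_mul, two_mul, map_add]

lemma th_two' : TH (2 : PowerSeries ℚ) = 0 := by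
  have h := TH.map_natCast 2
  exact_mod_cast h

lemma dgABH : dg (EA (EB HH)) = 2 * TH s11 - s11 := by
  have : EA (EB HH) = 2 * (EA (EA (EB GG)) + EB (EA (EB GG))) - EA (EB GG) := by
    apply qo_ext; intro a b
    simp only [qo_EA, qo_EB, qo_HH, qo_add, qo_sub, qo_two_mul, qo_GG]; ring
  rw [this, dg_sub, dg_two_mul, dg_add, ← TH_dg]; rfl

lemma dgAAH : dg (EA (EA HH)) = 2 * TH s20 - s20 := by
  have : EA (EA HH) = 2 * (EA (EA (EA GG)) + EB (EA (EA GG))) - EA (EA GG) := by
    apply qo_ext; intro a b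
    simp only [qo_EA, qo_EB, qo_HH, qo_add, qo_sub, qo_two_mul, qo_GG]; ring
  rw [this, dg_sub, dg_two_mul, dg_add, ← TH_dg]; rfl

lemma dgBBH : dg (EB (EB HH)) = 2 * TH s20 - s20 := by
  rw [← dgAAH]
  apply dg_swap
  intro a b; simp only [qo_EA, qo_EB, qo_HH, mm_symm a b]; ring

lemma dgAH : dg (EA HH) = 2 * TH s10 - s10 := by
  have : EA HH = 2 * (EA (EA GG) + EB (EA GG)) - EA GG := by
    apply qo_ext; intro a b
    simp only [qo_EA, qo_EB, qo_HH, qo_add, qo_sub, qo_two_mul, qo_GG]; ring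
  rw [this, dg_sub, dg_two_mul, dg_add, ← TH_dg]; rfl

lemma dgAK : dg (EA KK) = 2 * TH (2 * TH s10 - s10) - 2 * (2 * TH s10 - s10) := by
  have : EA KK = 2 * (EA (EA HH) + EB (EA HH)) - 2 * EA HH := by
    apply qo_ext; intro a b
    simp only [qo_EA, qo_EB, qo_KK, qo_HH, qo_add, qo_sub, qo_two_mul]; ring
  rw [this, dg_sub, dg_two_mul, dg_two_mul, dg_add, ← TH_dg, dgAH]

/-- First equation on the diagonal. -/
lemma diagA : s30 * s30 - s21 * s21 = 2 * (2 * TH s11 - s11) := by
  have h := congrArg dg v1_eq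
  rw [v1, dg_sub, dg_sub, dg_mul, dg_mul, dg_two_mul, s03, s12, dgABH, dg_zero] at h
  change s30 * s30 - s21 * s21 - 2 * (2 * TH s11 - s11) = 0 at h
  linear_combination h

/-- Second equation on the diagonal. -/
lemma diagB : (s30 - s21) * (2 * TH s20 - s20) =
    2 * TH (2 * TH s10 - s10) - 2 * (2 * TH s10 - s10) := by
  have h := congrArg dg v2_eq
  rw [v2, dg_sub, dg_sub, dg_mul, dg_mul, s12, dgBBH, dgAAH, dgAK, dg_zero] at h
  change s30 * (2 * TH s20 - s20) - (2 * TH (2 * TH s10 - s10) - 2 * (2 * TH s10 - s10))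
    - s21 * (2 * TH s20 - s20) = 0 at h
  linear_combination h

lemma diagE : (s30 - s21) * s20 = 2 * (2 * TH (s10 + s11 - s20) - (s10 + s11 - s20)) := by
  have hA := diagA
  have hB := diagB
  simp only [map_add, map_sub, th_two, TH_s10, TH_s20, TH_s11] at hA hB ⊢
  linear_combination 2 * hA - hB

lemma diag1 : (s40 - s22) * s20 = 2 * (2 * TH (s20 + s21 - s30) - (s20 + s21 - s30)) := by
  have hA := diagA
  have hE := congrArg TH diagE
  simp only [map_add, map_sub, th_two, TH_s10, TH_s20, TH_s11, TH_s30, TH_s21,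
    Derivation.leibniz, smul_eq_mul, th_two'] at hA hE ⊢
  linear_combination hE - hA

end Pool.Agent.MP_4d4b4c_ag
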