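import Pool.Agent.MP_4d4b4c_ag.Alg

set_option autoImplicit false

namespace Pool.Agent.MP_4d4b4c_ag

open MvPowerSeries Finset
open scoped Nat

/-- Convolution of arrays. -/
def conv (F H : ℕ → ℕ → ℚ) (d p : ℕ) : ℚ :=
  ∑ x ∈ antidiagonal d, ∑ y ∈ antidiagonal p, F x.1 y.1 * H x.2 y.2

/-- The coefficient of `q^d t₂^a t₃^b` in `f` is `F d p` if `a + k = 2 p`, `b + l + p = 2 d`,
and it is zero if there is no such `p`. -/
structure Rep (k l : ℕ) (f : PS) (F : ℕ → ℕ → ℚ) : Prop where
  val : ∀ d a b p, a + k = 2 * p → b + l + p = 2 * d → co f d a b = F d p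
  nil : ∀ d a b, (∀ p, ¬ (a + k = 2 * p ∧ b + l + p = 2 * d)) → co f d a b = 0
  sup : ∀ d p, (2 * p < k ∨ 2 * d < p + l) → F d p = 0

lemma Rep.d1 {k l : ℕ} {f : PS} {F : ℕ → ℕ → ℚ} (h : Rep k l f F) :
    Rep k l (D1 f) (fun d p => d * F d p) where
  val d a b p h1 h2 := by rw [co_D1, h.val d a b p h1 h2]
  nil d a b h1 := by rw [co_D1, h.nil d a b h1, mul_zero]
  sup d p h1 := by rw [h.sup d p h1, mul_zero]

lemma Rep.d2 {k l : ℕ} {f : PS} {F : ℕ → ℕ → ℚ} (h : Rep k l f F) :
    Rep (k + 1) l (D2 f) (fun d p => (2 * p - k) * F d p) where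
  val d a b p h1 h2 := by
    rw [co_D2, h.val d (a + 1) b p (by omega) h2]
    have : (a : ℚ) + (k + 1) = 2 * p := by exact_mod_cast h1
    congr 1; linarith
  nil d a b h1 := by
    rw [co_D2, h.nil d (a + 1) b, mul_zero]
    intro p hp; exact h1 p (by omega)
  sup d p h1 := by
    by_cases h2 : (2 * p < k ∨ 2 * d < p + l)
    · rw [h.sup d p h2, mul_zero]
    · have : 2 * p = k := by omega
      have : (2 : ℚ) * p = k := by exact_mod_cast this
      rw [this, sub_self, zero_mul]

lemma Rep.d3 {k l : ℕ} {f : PS} {F : ℕ → ℕ → ℚ} (h : Rep k l f F) :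
    Rep k (l + 1) (D3 f) (fun d p => (2 * d - p - l) * F d p) where
  val d a b p h1 h2 := by
    rw [co_D3, h.val d a (b + 1) p h1 (by omega)]
    have : (b : ℚ) + (l + 1) + p = 2 * d := by exact_mod_cast h2
    congr 1; linarith
  nil d a b h1 := by
    rw [co_D3, h.nil d a (b + 1), mul_zero]
    intro p hp; exact h1 p (by omega)
  sup d p h1 := by
    by_cases h2 : (2 * p < k ∨ 2 * d < p + l)
    · rw [h.sup d p h2, mul_zero]
    · have : 2 * d = p + l := by omega
      have : (2 : ℚ) * d = p + l := by exact_mod_cast this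
      rw [this]; ring

lemma Rep.mul {k l k' l' : ℕ} {f g : PS} {F H : ℕ → ℕ → ℚ} (hf : Rep k l f F)
    (hg : Rep k' l' g H) : Rep (k + k') (l + l') (f * g) (conv F H) where
  val d a b p h1 h2 := by
    classical
    rw [co_mul, conv]
    apply Finset.sum_congr rfl
    intro x hx
    rw [HasAntidiagonal.mem_antidiagonal] at hx
    rw [← Finset.sum_product']
    symm
    have hS : ∑ y ∈ antidiagonal p, F x.1 y.1 * H x.2 y.2 =
        ∑ y ∈ (antidiagonal p).filter (fun y => k ≤ 2 * y.1 ∧ k' ≤ 2 * y.2 ∧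
          y.1 + l ≤ 2 * x.1 ∧ y.2 + l' ≤ 2 * x.2), F x.1 y.1 * H x.2 y.2 := by
      symm
      apply Finset.sum_filter_of_ne
      intro y _ hne
      have n1 := left_ne_zero_of_mul hne
      have n2 := right_ne_zero_of_mul hne
      refine ⟨?_, ?_, ?_, ?_⟩
      · by_contra hc; exact n1 (hf.sup _ _ (by omega))
      · by_contra hc; exact n2 (hg.sup _ _ (by omega))
      · by_contra hc; exact n1 (hf.sup _ _ (by omega))
      · by_contra hc; exact n2 (hg.sup _ _ (by omega))
    rw [hS]
    refine Finset.sum_of_injOn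
      (fun y => ((2 * y.1 - k, 2 * y.2 - k'), (2 * x.1 - y.1 - l, 2 * x.2 - y.2 - l')))
      ?_ ?_ ?_ ?_
    · rintro ⟨u, v⟩ hu ⟨u', v'⟩ hu' he
      simp only [coe_filter, HasAntidiagonal.mem_antidiagonal, Set.mem_setOf_eq] at hu hu'
      simp only [Prod.mk.injEq] at he ⊢
      omega
    · rintro ⟨u, v⟩ hu
      simp only [coe_filter, HasAntidiagonal.mem_antidiagonal, Set.mem_setOf_eq] at hu
      simp only [coe_product, Set.mem_prod, mem_coe, HasAntidiagonal.mem_antidiagonal]
      omega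
    · rintro ⟨⟨a1, a2⟩, ⟨b1, b2⟩⟩ ht hn
      simp only [mem_product, HasAntidiagonal.mem_antidiagonal] at ht
      by_contra hne
      have n1 := left_ne_zero_of_mul hne
      have n2 := right_ne_zero_of_mul hne
      have h3 : ∃ p, a1 + k = 2 * p ∧ b1 + l + p = 2 * x.1 := by
        by_contra hc; push Not at hc
        exact n1 (hf.nil _ _ _ (fun p hp => hc p hp.1 hp.2))
      have h4 : ∃ p, a2 + k' = 2 * p ∧ b2 + l' + p = 2 * x.2 := by
        by_contra hc; push Not at hc
        exact n2 (hg.nil _ _ _ (fun p hp => hc p hp.1 hp.2))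
      obtain ⟨p1, h5, h6⟩ := h3
      obtain ⟨p2, h7, h8⟩ := h4
      apply hn
      refine ⟨(p1, p2), ?_, ?_⟩
      · simp only [coe_filter, HasAntidiagonal.mem_antidiagonal, Set.mem_setOf_eq]
        omega
      · simp only [Prod.mk.injEq]
        omega
    · rintro ⟨u, v⟩ hu
      simp only [mem_filter, HasAntidiagonal.mem_antidiagonal] at hu
      simp only
      rw [hf.val x.1 _ _ u (by omega) (by omega), hg.val x.2 _ _ v (by omega) (by omega)]
  nil d a b h1 := by
    rw [co_mul]
    apply Finset.sum_eq_zero; intro x hx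
    apply Finset.sum_eq_zero; intro y hy
    apply Finset.sum_eq_zero; intro z hz
    rw [HasAntidiagonal.mem_antidiagonal] at hx hy hz
    by_contra hne
    have n1 := left_ne_zero_of_mul hne
    have n2 := right_ne_zero_of_mul hne
    have h3 : ∃ p, y.1 + k = 2 * p ∧ z.1 + l + p = 2 * x.1 := by
      by_contra hc; push Not at hc
      exact n1 (hf.nil _ _ _ (fun p hp => hc p hp.1 hp.2))
    have h4 : ∃ p, y.2 + k' = 2 * p ∧ z.2 + l' + p = 2 * x.2 := by
      by_contra hc; push Not at hc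
      exact n2 (hg.nil _ _ _ (fun p hp => hc p hp.1 hp.2))
    obtain ⟨p1, h5, h6⟩ := h3
    obtain ⟨p2, h7, h8⟩ := h4
    exact h1 (p1 + p2) (by omega)
  sup d p h1 := by
    rw [conv]
    apply Finset.sum_eq_zero; intro x hx
    apply Finset.sum_eq_zero; intro y hy
    rw [HasAntidiagonal.mem_antidiagonal] at hx hy
    by_cases h2 : (2 * y.1 < k ∨ 2 * x.1 < y.1 + l)
    · rw [hf.sup _ _ h2, zero_mul]
    · rw [hg.sup _ _ (by omega), mul_zero]

/-- Normalised numbers. -/
def nn (N : ℕ → ℕ → ℚ) (d p : ℕ) : ℚ := N d p / ((2 * p)! * (2 * d - p)!)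

lemma rep_potential {N : ℕ → ℕ → ℚ} (hN : ∀ d p, 2 * d < p → N d p = 0) :
    Rep 0 0 (potential N) (nn N) where
  val d a b p h1 h2 := by
    have ha : a / 2 = p := by omega
    have h4 : a + 2 * b = 4 * d := by omega
    have hb : 2 * d - p = b := by omega
    have ha' : 2 * p = a := by omega
    simp only [co, potential, coeff_apply, ix_zero, ix_one, ix_two, nn]
    rw [if_pos h4, ha, hb, ha']
  nil d a b h1 := by
    simp only [co, potential, coeff_apply, ix_zero, ix_one, ix_two]
    rw [if_neg]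
    intro h
    exact h1 (a / 2) (by omega)
  sup d p h1 := by
    rw [nn, hN d p (by omega), zero_div]

end Pool.Agent.MP_4d4b4c_ag
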