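import Pool.Agent.MP_4d4b4c_ag.Bounds

set_option autoImplicit false

namespace Pool.Agent.MP_4d4b4c_ag

open Finset

/-- The majorant. -/
def UU (d : ℕ) : ℚ := 192 ^ d / (384 * d ^ 5)

lemma UU_nonneg (d : ℕ) : 0 ≤ UU d := by rw [UU]; positivity

lemma sum_inv_sq (n : ℕ) : ∑ k ∈ range (n + 2), (1 : ℚ) / (k : ℚ) ^ 2 ≤ 2 - 1 / (n + 1) := by
  induction n with
  | zero => rw [Finset.sum_range_succ, Finset.sum_range_succ]; norm_num
  | succ n ih =>
    rw [Finset.sum_range_succ]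
    have h1 : (0 : ℚ) < (n : ℚ) + 1 := by positivity
    have h2 : (0 : ℚ) < (n : ℚ) + 2 := by positivity
    have h3 : (1 : ℚ) / ((n + 2 : ℕ) : ℚ) ^ 2 ≤ 1 / (n + 1) - 1 / (n + 2) := by
      push_cast
      rw [div_sub_div _ _ h1.ne' h2.ne', div_le_div_iff₀ (by positivity) (by positivity)]
      nlinarith
    push_cast at h3 ⊢
    have e : (n : ℚ) + 1 + 1 = n + 2 := by ring
    rw [e]
    linarith

lemma sum_anti_inv (d : ℕ) (hd : 1 ≤ d) :
    ∑ x ∈ antidiagonal d, (1 : ℚ) / (x.1 : ℚ) ^ 2 * (1 / (x.2 : ℚ) ^ 2) ≤ 8 / (d : ℚ) ^ 2 := by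
  have hd' : (0 : ℚ) < d := by exact_mod_cast hd
  have h1 : ∑ x ∈ antidiagonal d, (1 : ℚ) / (x.1 : ℚ) ^ 2 ≤ 2 := by
    rw [Finset.Nat.sum_antidiagonal_eq_sum_range_succ_mk]
    obtain ⟨e, rfl⟩ : ∃ e, d = e + 1 := ⟨d - 1, by omega⟩
    have := sum_inv_sq e
    have h0 : (0 : ℚ) ≤ 1 / (e + 1) := by positivity
    simp only [Nat.succ_eq_add_one]
    linarith
  have h2 : ∑ x ∈ antidiagonal d, (1 : ℚ) / (x.2 : ℚ) ^ 2 ≤ 2 := by
    rw [← Finset.Nat.sum_antidiagonal_swap]
    exact h1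
  have h3 : ∀ x ∈ antidiagonal d, (1 : ℚ) / (x.1 : ℚ) ^ 2 * (1 / (x.2 : ℚ) ^ 2) ≤
      2 / d ^ 2 * (1 / (x.1 : ℚ) ^ 2) + 2 / d ^ 2 * (1 / (x.2 : ℚ) ^ 2) := by
    intro x hx
    rw [HasAntidiagonal.mem_antidiagonal] at hx
    rcases Nat.eq_zero_or_pos x.1 with hx1 | hx1
    · rw [hx1]; simp; positivity
    · rcases Nat.eq_zero_or_pos x.2 with hx2 | hx2
      · rw [hx2]; simp; positivity
      · have a : (0 : ℚ) < x.1 := by exact_mod_cast hx1
        have b : (0 : ℚ) < x.2 := by exact_mod_cast hx2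
        have hs : (d : ℚ) = x.1 + x.2 := by rw [← hx]; push_cast; ring
        rw [hs]
        have e : 2 / ((x.1 : ℚ) + x.2) ^ 2 * (1 / (x.1 : ℚ) ^ 2) +
            2 / ((x.1 : ℚ) + x.2) ^ 2 * (1 / (x.2 : ℚ) ^ 2)
            - (1 : ℚ) / (x.1 : ℚ) ^ 2 * (1 / (x.2 : ℚ) ^ 2) =
            ((x.1 : ℚ) - x.2) ^ 2 / (((x.1 : ℚ) + x.2) ^ 2 * x.1 ^ 2 * x.2 ^ 2) := by
          field_simp
          ring
        have : 0 ≤ ((x.1 : ℚ) - x.2) ^ 2 / (((x.1 : ℚ) + x.2) ^ 2 * x.1 ^ 2 * x.2 ^ 2) := by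
          positivity
        linarith
  calc _ ≤ ∑ x ∈ antidiagonal d, (2 / (d : ℚ) ^ 2 * (1 / (x.1 : ℚ) ^ 2)
        + 2 / d ^ 2 * (1 / (x.2 : ℚ) ^ 2)) := Finset.sum_le_sum h3
    _ = 2 / (d : ℚ) ^ 2 * (∑ x ∈ antidiagonal d, (1 : ℚ) / (x.1 : ℚ) ^ 2)
        + 2 / d ^ 2 * (∑ x ∈ antidiagonal d, (1 : ℚ) / (x.2 : ℚ) ^ 2) := by
        rw [Finset.sum_add_distrib, Finset.mul_sum, Finset.mul_sum]
    _ ≤ 2 / (d : ℚ) ^ 2 * 2 + 2 / d ^ 2 * 2 := by
        have : (0 : ℚ) ≤ 2 / (d : ℚ) ^ 2 := by positivity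
        gcongr
    _ = 8 / d ^ 2 := by ring

lemma cube_UU (d : ℕ) : (d : ℚ) ^ 3 * UU d = 192 ^ d / 384 * (1 / (d : ℚ) ^ 2) := by
  rcases Nat.eq_zero_or_pos d with h | h
  · subst h; simp
  · have : (0 : ℚ) < d := by exact_mod_cast h
    rw [UU]; field_simp

lemma sum_UU (d : ℕ) (hd : 1 ≤ d) :
    ∑ x ∈ antidiagonal d, ((x.1 : ℚ) ^ 3 * UU x.1) * ((x.2 : ℚ) ^ 3 * UU x.2) ≤
      (d : ℚ) ^ 3 * UU d / 48 := by
  have hd' : (0 : ℚ) < d := by exact_mod_cast hd
  have e : ∑ x ∈ antidiagonal d, ((x.1 : ℚ) ^ 3 * UU x.1) * ((x.2 : ℚ) ^ 3 * UU x.2) =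
      192 ^ d / 384 ^ 2 *
        ∑ x ∈ antidiagonal d, (1 : ℚ) / (x.1 : ℚ) ^ 2 * (1 / (x.2 : ℚ) ^ 2) := by
    rw [Finset.mul_sum]
    apply Finset.sum_congr rfl
    intro x hx
    rw [HasAntidiagonal.mem_antidiagonal] at hx
    rw [cube_UU, cube_UU, ← hx, pow_add]; ring
  rw [e, cube_UU]
  have := sum_anti_inv d hd
  have h2 : (0 : ℚ) ≤ 192 ^ d / 384 ^ 2 := by positivity
  have h3 := mul_le_mul_of_nonneg_left this h2
  refine h3.trans (le_of_eq ?_)
  field_simp
  norm_num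

lemma choose_step (M K : ℕ) :
    ((K + 2 : ℕ) : ℚ) * (K + 1 : ℕ) * ((M + 2).choose (K + 2) : ℚ) =
      (M + 2 : ℕ) * (M + 1 : ℕ) * (M.choose K : ℚ) := by
  have h1 := Nat.add_one_mul_choose_eq (M + 1) (K + 1)
  have h2 := Nat.add_one_mul_choose_eq M K
  have h1' : ((M + 2 : ℕ) : ℚ) * ((M + 1).choose (K + 1) : ℚ) =
      ((M + 2).choose (K + 2) : ℚ) * (K + 2 : ℕ) := by exact_mod_cast h1
  have h2' : ((M + 1 : ℕ) : ℚ) * (M.choose K : ℚ) =
      ((M + 1).choose (K + 1) : ℚ) * (K + 1 : ℕ) := by exact_mod_cast h2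
  linear_combination (-(K + 1 : ℕ) : ℚ) * h1' - (M + 2 : ℕ) * h2'

lemma choose_step2 (M K : ℕ) (hK : K ≤ M + 1) :
    ((M + 1 : ℕ) - (K : ℚ)) * ((M + 1).choose K : ℚ) = (M + 1 : ℕ) * (M.choose K : ℚ) := by
  have h := Nat.choose_mul_succ_eq M K
  have h' : (M.choose K : ℚ) * (M + 1 : ℕ) = ((M + 1).choose K : ℚ) * ((M + 1 - K : ℕ) : ℚ) := by
    exact_mod_cast h
  rw [Nat.cast_sub hK] at h'
  linarith

lemma choose_mul_le (a b i j : ℕ) : (a.choose i) * (b.choose j) ≤ (a + b).choose (i + j) := by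
  rw [Nat.add_choose_eq]
  exact Finset.single_le_sum (f := fun ij : ℕ × ℕ => a.choose ij.1 * b.choose ij.2)
    (fun _ _ => Nat.zero_le _) (a := (i, j)) (by simp)

section
variable {n : ℕ → ℕ → ℚ} (h : Hub n)
include h

/-- The quadratic term in the recursion. -/
lemma Hub.quad_le (d p : ℕ) (hd : 1 ≤ d) (hp : p + 1 ≤ 2 * d)
    (ih : ∀ e, e < d → ∀ q, q ≤ 2 * e → n e q ≤ ((2 * e + q).choose (2 * q) : ℚ) * UU e) :
    ∑ x ∈ antidiagonal d, ∑ y ∈ antidiagonal (p + 1),
      (x.1 : ℚ) ^ 3 * n x.1 y.1 * (2 * y.2 * (2 * y.2 - 1) * n x.2 y.2) ≤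
    32 * ((2 * d + p - 1).choose (2 * p) : ℚ) * ((d : ℚ) ^ 3 * UU d / 48) := by
  set B : ℚ := ((2 * d + p - 1).choose (2 * p) : ℚ) with hB
  have hBn : 0 ≤ B := by positivity
  have hx : ∀ x ∈ antidiagonal d, ∑ y ∈ antidiagonal (p + 1),
      (x.1 : ℚ) ^ 3 * n x.1 y.1 * (2 * y.2 * (2 * y.2 - 1) * n x.2 y.2) ≤
      32 * B * (((x.1 : ℚ) ^ 3 * UU x.1) * ((x.2 : ℚ) ^ 3 * UU x.2)) := by
    intro x hx
    rw [HasAntidiagonal.mem_antidiagonal] at hx
    have u1 := UU_nonneg x.1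
    have u2 := UU_nonneg x.2
    rcases Nat.eq_zero_or_pos x.1 with hx1 | hx1
    · rw [hx1]; simp
    rcases Nat.eq_zero_or_pos x.2 with hx2 | hx2
    · rw [hx2]; simp [h.zero]
    have hx1' : (1 : ℚ) ≤ x.1 := by exact_mod_cast hx1
    have hx2' : (1 : ℚ) ≤ x.2 := by exact_mod_cast hx2
    -- termwise bound
    have ht : ∀ y ∈ antidiagonal (p + 1),
        (x.1 : ℚ) ^ 3 * n x.1 y.1 * (2 * y.2 * (2 * y.2 - 1) * n x.2 y.2) ≤
        if y.2 ∈ Finset.Icc 1 (2 * x.2) then
          16 * B * ((x.1 : ℚ) ^ 3 * (x.2 : ℚ) ^ 2 * UU x.1 * UU x.2) else 0 := by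
      intro y hy
      rw [HasAntidiagonal.mem_antidiagonal] at hy
      split_ifs with hc
      · rw [Finset.mem_Icc] at hc
        by_cases hy1 : y.1 ≤ 2 * x.1
        · have i1 := ih x.1 (by omega) y.1 hy1
          have i2 := ih x.2 (by omega) y.2 hc.2
          have n1 := h.nonneg x.1 y.1
          have n2 := h.nonneg x.2 y.2
          obtain ⟨q, hq⟩ : ∃ q, y.2 = q + 1 := ⟨y.2 - 1, by omega⟩
          obtain ⟨m, hm⟩ : ∃ m, 2 * x.2 + y.2 = m + 2 := ⟨2 * x.2 + y.2 - 2, by omega⟩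
          have cs := choose_step m (2 * q)
          have e2q : 2 * y.2 = 2 * q + 2 := by omega
          rw [hm, e2q] at i2
          have hq' : (y.2 : ℚ) = q + 1 := by rw [hq]; push_cast; ring
          have hfac : (2 * (y.2 : ℚ) * (2 * y.2 - 1)) = ((2 * q + 2 : ℕ) : ℚ) * (2 * q + 1 : ℕ) := by
            rw [hq']; push_cast; ring
          have hmm : ((m + 2 : ℕ) : ℚ) * (m + 1 : ℕ) ≤ 16 * (x.2 : ℚ) ^ 2 := by
            have a1 : ((m + 2 : ℕ) : ℚ) ≤ 4 * x.2 := by
              have : m + 2 ≤ 4 * x.2 := by omega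
              exact_mod_cast this
            have a2 : ((m + 1 : ℕ) : ℚ) ≤ 4 * x.2 := by
              have : m + 1 ≤ 4 * x.2 := by omega
              exact_mod_cast this
            calc ((m + 2 : ℕ) : ℚ) * (m + 1 : ℕ) ≤ (4 * x.2) * (4 * x.2) :=
                  mul_le_mul a1 a2 (by positivity) (by positivity)
              _ = 16 * (x.2 : ℚ) ^ 2 := by ring
          have second : 2 * (y.2 : ℚ) * (2 * y.2 - 1) * n x.2 y.2 ≤
              16 * (x.2 : ℚ) ^ 2 * (m.choose (2 * q) : ℚ) * UU x.2 := by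
            calc 2 * (y.2 : ℚ) * (2 * y.2 - 1) * n x.2 y.2
                ≤ (((2 * q + 2 : ℕ) : ℚ) * (2 * q + 1 : ℕ)) *
                    (((m + 2).choose (2 * q + 2) : ℚ) * UU x.2) := by
                  rw [hfac]; exact mul_le_mul_of_nonneg_left i2 (by positivity)
              _ = (((m + 2 : ℕ) : ℚ) * (m + 1 : ℕ)) * ((m.choose (2 * q) : ℚ) * UU x.2) := by
                  rw [← mul_assoc, cs, mul_assoc]
              _ ≤ (16 * (x.2 : ℚ) ^ 2) * ((m.choose (2 * q) : ℚ) * UU x.2) :=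
                  mul_le_mul_of_nonneg_right hmm (by positivity)
              _ = _ := by ring
          have second0 : 0 ≤ 2 * (y.2 : ℚ) * (2 * y.2 - 1) * n x.2 y.2 := by
            rw [hfac]; positivity
          have ch : ((2 * x.1 + y.1).choose (2 * y.1) : ℚ) * (m.choose (2 * q) : ℚ) ≤ B := by
            have := choose_mul_le (2 * x.1 + y.1) m (2 * y.1) (2 * q)
            have e1 : 2 * x.1 + y.1 + m = 2 * d + p - 1 := by omega
            have e2 : 2 * y.1 + 2 * q = 2 * p := by omega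
            rw [e1, e2] at this
            rw [hB]
            exact_mod_cast this
          calc (x.1 : ℚ) ^ 3 * n x.1 y.1 * (2 * y.2 * (2 * y.2 - 1) * n x.2 y.2)
              ≤ ((x.1 : ℚ) ^ 3 * (((2 * x.1 + y.1).choose (2 * y.1) : ℚ) * UU x.1)) *
                (16 * (x.2 : ℚ) ^ 2 * (m.choose (2 * q) : ℚ) * UU x.2) := by
                apply mul_le_mul _ second second0 (by positivity)
                exact mul_le_mul_of_nonneg_left i1 (by positivity)
            _ = (16 * ((x.1 : ℚ) ^ 3 * (x.2 : ℚ) ^ 2 * UU x.1 * UU x.2)) *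
                (((2 * x.1 + y.1).choose (2 * y.1) : ℚ) * (m.choose (2 * q) : ℚ)) := by ring
            _ ≤ (16 * ((x.1 : ℚ) ^ 3 * (x.2 : ℚ) ^ 2 * UU x.1 * UU x.2)) * B :=
                mul_le_mul_of_nonneg_left ch (by positivity)
            _ = _ := by ring
        · rw [h.range x.1 y.1 (by omega)]
          simp only [mul_zero, zero_mul]
          positivity
      · rw [Finset.mem_Icc] at hc
        by_cases hy0 : y.2 = 0
        · rw [hy0]; simp
        · rw [h.range x.2 y.2 (by omega)]; simp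
    refine (Finset.sum_le_sum ht).trans ?_
    rw [← Finset.sum_filter, Finset.sum_const, nsmul_eq_mul]
    have hcard : ((antidiagonal (p + 1)).filter (fun y => y.2 ∈ Finset.Icc 1 (2 * x.2))).card
        ≤ 2 * x.2 := by
      have : ((antidiagonal (p + 1)).filter (fun y => y.2 ∈ Finset.Icc 1 (2 * x.2))).card ≤
          (Finset.Icc 1 (2 * x.2)).card := by
        apply Finset.card_le_card_of_injOn (fun y => y.2)
        · intro y hy
          simp only [coe_filter, Set.mem_setOf_eq] at hy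
          exact hy.2
        · rintro ⟨a, b⟩ hy ⟨a', b'⟩ hy' heq
          simp only [coe_filter, HasAntidiagonal.mem_antidiagonal, Set.mem_setOf_eq] at hy hy'
          simp only at heq
          have := hy.1
          have := hy'.1
          simp only [Prod.mk.injEq]
          omega
      simpa using this
    have hcard' : ((((antidiagonal (p + 1)).filter
        (fun y => y.2 ∈ Finset.Icc 1 (2 * x.2))).card : ℕ) : ℚ) ≤ 2 * x.2 := by
      exact_mod_cast hcard
    calc _ ≤ (2 * (x.2 : ℚ)) * (16 * B * ((x.1 : ℚ) ^ 3 * (x.2 : ℚ) ^ 2 * UU x.1 * UU x.2)) :=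
          mul_le_mul_of_nonneg_right hcard' (by positivity)
      _ = _ := by ring
  refine (Finset.sum_le_sum hx).trans ?_
  rw [← Finset.mul_sum]
  exact mul_le_mul_of_nonneg_left (sum_UU d hd) (by positivity)

theorem Hub.upper (d : ℕ) (hd : 1 ≤ d) (p : ℕ) (hp : p ≤ 2 * d) :
    n d p ≤ ((2 * d + p).choose (2 * p) : ℚ) * UU d := by
  induction d using Nat.strong_induction_on generalizing p with
  | _ d ih0 =>
    have hd' : (1 : ℚ) ≤ d := by exact_mod_cast hd
    have ih : ∀ e, e < d → ∀ q, q ≤ 2 * e → n e q ≤ ((2 * e + q).choose (2 * q) : ℚ) * UU e := by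
      intro e he q hq
      rcases Nat.eq_zero_or_pos e with h0 | h0
      · subst h0; rw [h.zero]; have := UU_nonneg 0; positivity
      · exact ih0 e he h0 q hq
    have hU := UU_nonneg d
    induction p with
    | zero =>
      rw [mul_zero, Nat.choose_zero_right, Nat.cast_one, one_mul]
      by_cases h1 : d = 1
      · subst h1; rw [h.line, UU]; norm_num
      · have h2 : 2 ≤ d := by omega
        have hd2 : (2 : ℚ) ≤ d := by exact_mod_cast h2
        have e := h.pts d h2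
        have hs : ∑ x ∈ antidiagonal d, 4 * (x.2 : ℚ) ^ 2 * (x.1 - x.2) * n x.1 1 * n x.2 0 ≤
            12 * ∑ x ∈ antidiagonal d, ((x.1 : ℚ) ^ 3 * UU x.1) * ((x.2 : ℚ) ^ 3 * UU x.2) := by
          rw [Finset.mul_sum]
          apply Finset.sum_le_sum
          intro x hx
          rw [HasAntidiagonal.mem_antidiagonal] at hx
          have u1 := UU_nonneg x.1
          have u2 := UU_nonneg x.2
          rcases Nat.eq_zero_or_pos x.1 with hx1 | hx1
          · rw [hx1, h.zero]; simp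
          rcases Nat.eq_zero_or_pos x.2 with hx2 | hx2
          · rw [hx2]; simp
          have hx1' : (1 : ℚ) ≤ x.1 := by exact_mod_cast hx1
          have hx2' : (1 : ℚ) ≤ x.2 := by exact_mod_cast hx2
          have i1 := ih x.1 (by omega) 1 (by omega)
          have i2 := ih x.2 (by omega) 0 (by omega)
          rw [mul_zero, Nat.choose_zero_right, Nat.cast_one, one_mul] at i2
          have n1 := h.nonneg x.1 1
          have n2 := h.nonneg x.2 0
          have hc : ((2 * x.1 + 1).choose (2 * 1) : ℚ) ≤ 3 * (x.1 : ℚ) ^ 2 := by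
            have c := choose_step (2 * x.1 - 1) 0
            have e1 : 2 * x.1 - 1 + 2 = 2 * x.1 + 1 := by omega
            have e2 : 2 * x.1 - 1 + 1 = 2 * x.1 := by omega
            rw [e1, e2] at c
            norm_num at c
            have e3 : ((2 * x.1 + 1).choose (2 * 1) : ℚ) = ((2 * x.1 + 1).choose 2 : ℚ) := by norm_num
            rw [e3]
            nlinarith
          have i1' : n x.1 1 ≤ 3 * (x.1 : ℚ) ^ 2 * UU x.1 :=
            i1.trans (mul_le_mul_of_nonneg_right hc u1)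
          calc 4 * (x.2 : ℚ) ^ 2 * (x.1 - x.2) * n x.1 1 * n x.2 0
              ≤ 4 * (x.2 : ℚ) ^ 2 * x.1 * n x.1 1 * n x.2 0 := by
                gcongr
                linarith
            _ ≤ 4 * (x.2 : ℚ) ^ 2 * x.1 * (3 * (x.1 : ℚ) ^ 2 * UU x.1) * UU x.2 := by
                gcongr
            _ = 12 * (x.1 : ℚ) ^ 3 * UU x.1 * UU x.2 * (x.2 : ℚ) ^ 2 := by ring
            _ ≤ 12 * (x.1 : ℚ) ^ 3 * UU x.1 * UU x.2 * (x.2 : ℚ) ^ 3 := by
                apply mul_le_mul_of_nonneg_left _ (by positivity)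
                nlinarith [sq_nonneg (x.2 : ℚ)]
            _ = _ := by ring
        have hsum := sum_UU d hd
        have hfin : 2 * (d : ℚ) * (2 * d - 1) * (2 * d - 2) * n d 0 ≤ (d : ℚ) ^ 3 * UU d / 4 := by
          rw [e]; linarith
        have hge : (d : ℚ) ^ 3 ≤ 2 * (d : ℚ) * (2 * d - 1) * (2 * d - 2) := by
          have a1 : (d : ℚ) ≤ 2 * d - 1 := by linarith
          have a2 : (d : ℚ) ≤ 2 * d - 2 := by linarith
          have a3 : (d : ℚ) * d ≤ (2 * d - 1) * (2 * d - 2) :=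
            mul_le_mul a1 a2 (by positivity) (by linarith)
          nlinarith
        have nn0 := h.nonneg d 0
        have : (d : ℚ) ^ 3 * n d 0 ≤ (d : ℚ) ^ 3 * UU d := by
          have b1 := mul_le_mul_of_nonneg_right hge nn0
          have b2 : (d : ℚ) ^ 3 * UU d / 4 ≤ (d : ℚ) ^ 3 * UU d := by
            have : 0 ≤ (d : ℚ) ^ 3 * UU d := by positivity
            linarith
          linarith
        exact le_of_mul_le_mul_left this (by positivity)
    | succ p ihp =>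
      have i := ihp (by omega)
      have e := h.rec' d p hp
      have q := h.quad_le d p hd hp ih
      obtain ⟨M, hM⟩ : ∃ M, 2 * d + p = M + 1 := ⟨2 * d + p - 1, by omega⟩
      have hM1 : 2 * d + p - 1 = M := by omega
      have hM2 : 2 * d + (p + 1) = M + 2 := by omega
      rw [hM1] at q
      rw [hM] at i
      rw [hM2, mul_add, mul_one]
      have hMq : (2 : ℚ) * d + p = M + 1 := by exact_mod_cast hM
      have hpq : (p : ℚ) + 1 ≤ 2 * d := by exact_mod_cast hp
      set B : ℚ := (M.choose (2 * p) : ℚ) with hB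
      have hBn : 0 ≤ B := by positivity
      have c1 := choose_step M (2 * p)
      have c2 := choose_step2 M (2 * p) (by omega)
      rw [← hB] at c1 c2
      push_cast at c1 c2
      -- linear term
      have lin : (d : ℚ) * (2 * d - p) * (2 * d + p - 1) * n d p ≤
          d * M * (M + 1) * B * UU d := by
        have a1 : (0 : ℚ) ≤ d * M := by positivity
        have a2 : (0 : ℚ) ≤ 2 * d - p := by linarith
        have e1 : (2 : ℚ) * d - p = M + 1 - 2 * p := by linarith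
        have e2 : (2 : ℚ) * d + p - 1 = M := by linarith
        calc (d : ℚ) * (2 * d - p) * (2 * d + p - 1) * n d p
            = (d * M) * (2 * d - p) * n d p := by rw [e2]; ring
          _ ≤ (d * M) * (2 * d - p) * (((M + 1).choose (2 * p) : ℚ) * UU d) := by
              apply mul_le_mul_of_nonneg_left i (by positivity)
          _ = (d * M) * ((M + 1 - 2 * p) * ((M + 1).choose (2 * p) : ℚ)) * UU d := by
              rw [e1]; ring
          _ = (d * M) * ((M + 1) * B) * UU d := by rw [c2]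
          _ = _ := by ring
      have tot : (2 * (d : ℚ) - 1) * (2 * p + 2) * (2 * p + 1) * n d (p + 1) ≤
          (d * M * (M + 1) + 2 / 3 * d ^ 3) * (B * UU d) := by
        rw [e]
        linarith
      have hMge : (2 * (d : ℚ) - 1) ≤ M := by
        have : (0 : ℚ) ≤ p := by positivity
        linarith
      have coef : (d * M * (M + 1) + 2 / 3 * d ^ 3 : ℚ) ≤ (2 * d - 1) * ((M + 2) * (M + 1)) := by
        have b1 : (0 : ℚ) ≤ (d - 1) * (M - (2 * d - 1)) := mul_nonneg (by linarith) (by linarith)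
        have b2 : (2 * (d : ℚ) - 1) * (d + 1) ≤ (2 * d - 1) * (M + 2) - d * M := by nlinarith
        have b3 : 0 ≤ (2 * (d : ℚ) - 1) * (d + 1) := by
          have : (0 : ℚ) ≤ 2 * d - 1 := by linarith
          positivity
        have b4 : 2 * (d : ℚ) ≤ M + 1 := by linarith
        have b5 : (2 * (d : ℚ)) * ((2 * d - 1) * (d + 1)) ≤ (M + 1) * ((2 * d - 1) * (M + 2) - d * M) :=
          mul_le_mul b4 b2 b3 (by positivity)
        have b6 : (2 / 3 * d ^ 3 : ℚ) ≤ (2 * (d : ℚ)) * ((2 * d - 1) * (d + 1)) := by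
          nlinarith [mul_nonneg (sub_nonneg.mpr hd') (sq_nonneg (d : ℚ)), sq_nonneg (d : ℚ)]
        nlinarith
      have key : ((2 * (d : ℚ) - 1) * (2 * p + 2) * (2 * p + 1)) * n d (p + 1) ≤
          ((2 * (d : ℚ) - 1) * (2 * p + 2) * (2 * p + 1)) *
            (((M + 2).choose (2 * p + 2) : ℚ) * UU d) := by
        calc ((2 * (d : ℚ) - 1) * (2 * p + 2) * (2 * p + 1)) * n d (p + 1)
            ≤ (d * M * (M + 1) + 2 / 3 * d ^ 3) * (B * UU d) := tot
          _ ≤ ((2 * d - 1) * ((M + 2) * (M + 1))) * (B * UU d) :=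
              mul_le_mul_of_nonneg_right coef (by positivity)
          _ = (2 * d - 1) * ((M + 2) * (M + 1) * B) * UU d := by ring
          _ = (2 * d - 1) * ((2 * p + 2) * (2 * p + 1) * ((M + 2).choose (2 * p + 2) : ℚ)) * UU d := by
              rw [c1]
          _ = _ := by ring
      have a2 : (0 : ℚ) < 2 * d - 1 := by linarith
      exact le_of_mul_le_mul_left key (by positivity)

end

end Pool.Agent.MP_4d4b4c_ag
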