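import Pool.Agent.MP_4d4b4c_ag.Rep

set_option autoImplicit false

namespace Pool.Agent.MP_4d4b4c_ag

open MvPowerSeries Finset

lemma dT_zero (f : PS) : dT 0 f = 0 := rfl
lemma dT_one (f : PS) : dT 1 f = D1 f := rfl
lemma dT_two (f : PS) : dT 2 f = D2 f := rfl
lemma dT_three (f : PS) : dT 3 f = D3 f := rfl

lemma dT_comm (i j : Fin 4) (f : PS) : dT i (dT j f) = dT j (dT i f) := by
  fin_cases i <;> fin_cases j <;>
    simp [dT_zero, dT_one, dT_two, dT_three, D21, D31, D32]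

lemma F3_comm12 (N : ℕ → ℕ → ℚ) (i j k : Fin 4) : F3 N i j k = F3 N j i k := by
  unfold F3
  rw [dT_comm i j, add_comm (i : ℕ) (j : ℕ)]

lemma F3_comm23 (N : ℕ → ℕ → ℚ) (i j k : Fin 4) : F3 N i j k = F3 N i k j := by
  unfold F3
  rw [dT_comm j k, add_right_comm (i : ℕ) (j : ℕ)]

/-- The pairing `∑ₑ F_{ije} F_{(3-e)kl}`. -/
noncomputable def PP (N : ℕ → ℕ → ℚ) (i j k l : Fin 4) : PS :=
  ∑ e : Fin 4, F3 N i j e * F3 N e.rev k l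

lemma PP_comm12 (N : ℕ → ℕ → ℚ) (i j k l : Fin 4) : PP N i j k l = PP N j i k l := by
  unfold PP
  simp only [F3_comm12 N i j]

lemma PP_comm34 (N : ℕ → ℕ → ℚ) (i j k l : Fin 4) : PP N i j k l = PP N i j l k := by
  unfold PP
  refine Finset.sum_congr rfl fun e _ => ?_
  rw [F3_comm23 N e.rev k l]

lemma PP_swap (N : ℕ → ℕ → ℚ) (i j k l : Fin 4) : PP N i j k l = PP N k l i j := by
  unfold PP
  rw [Fin.sum_univ_four, Fin.sum_univ_four]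
  have r0 : (0 : Fin 4).rev = 3 := rfl
  have r1 : (1 : Fin 4).rev = 2 := rfl
  have r2 : (2 : Fin 4).rev = 1 := rfl
  have r3 : (3 : Fin 4).rev = 0 := rfl
  have e : ∀ a b c : Fin 4, F3 N a b c = F3 N b c a := by
    intro a b c; rw [F3_comm12, F3_comm23]
  rw [r0, r1, r2, r3, e 3 k l, e 2 k l, e 1 k l, e 0 k l, ← e 0 i j, ← e 1 i j, ← e 2 i j,
    ← e 3 i j]
  ring

section values
variable (N : ℕ → ℕ → ℚ)

lemma F3_0_0_0 : F3 N 0 0 0 = 0 := by simp [F3, dT_zero]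
lemma F3_0_0_3 : F3 N 0 0 3 = 1 := by
  have : ((0 : Fin 4) : ℕ) + ((0 : Fin 4) : ℕ) + ((3 : Fin 4) : ℕ) = 3 := rfl
  simp [F3, dT_zero]
end values

lemma F3_val (N : ℕ → ℕ → ℚ) (i j k : Fin 4) :
    F3 N i j k = (if (i : ℕ) + j + k = 3 then 1 else 0) + dT i (dT j (dT k (potential N))) := rfl

lemma dT_add_zero (i : Fin 4) : dT i 0 = 0 := by
  fin_cases i <;> simp [dT_zero, dT_one, dT_two, dT_three]

lemma F3_zero_left (N : ℕ → ℕ → ℚ) (j k : Fin 4) :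
    F3 N 0 j k = if (j : ℕ) + k = 3 then 1 else 0 := by
  rw [F3_val, dT_zero, add_zero]
  simp

/-- If one index is zero the pairing is just a third derivative. -/
lemma PP_zero (N : ℕ → ℕ → ℚ) (j k l : Fin 4) : PP N 0 j k l = F3 N j k l := by
  unfold PP
  rw [Fin.sum_univ_four]
  simp only [F3_zero_left]
  fin_cases j <;> simp [F3_zero_left, Fin.rev]

lemma PP_zero_symm (N : ℕ → ℕ → ℚ) (j k l : Fin 4) : PP N 0 j k l = PP N 0 k j l := by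
  rw [PP_zero, PP_zero, F3_comm12]

lemma val_lemmas (N : ℕ → ℕ → ℚ) :
    F3 N 1 1 0 = 0 ∧ F3 N 1 2 0 = 1 ∧ F3 N 1 3 0 = 0 ∧ F3 N 2 2 0 = 0 ∧ F3 N 2 3 0 = 0
    ∧ F3 N 3 3 0 = 0 ∧ F3 N 1 1 1 = 1 + D1 (D1 (D1 (potential N)))
    ∧ F3 N 1 1 2 = D1 (D1 (D2 (potential N))) ∧ F3 N 1 1 3 = D1 (D1 (D3 (potential N)))
    ∧ F3 N 1 2 2 = D1 (D2 (D2 (potential N))) ∧ F3 N 1 2 3 = D1 (D2 (D3 (potential N)))
    ∧ F3 N 1 3 3 = D1 (D3 (D3 (potential N))) ∧ F3 N 2 2 2 = D2 (D2 (D2 (potential N)))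
    ∧ F3 N 2 2 3 = D2 (D2 (D3 (potential N))) ∧ F3 N 2 3 3 = D2 (D3 (D3 (potential N)))
    ∧ F3 N 3 3 3 = D3 (D3 (D3 (potential N))) := by
  refine ⟨?_, ?_, ?_, ?_, ?_, ?_, ?_, ?_, ?_, ?_, ?_, ?_, ?_, ?_, ?_, ?_⟩ <;>
    simp [F3_val, dT_zero, dT_one, dT_two, dT_three]

lemma PP_1122 (N : ℕ → ℕ → ℚ) : PP N 1 1 2 2 - PP N 1 2 1 2 = w1 (potential N) := by
  obtain ⟨a1, a2, a3, a4, a5, a6, b1, b2, b3, b4, b5, b6, b7, b8, b9, b10⟩ := val_lemmas N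
  unfold PP
  rw [Fin.sum_univ_four, Fin.sum_univ_four]
  have r0 : (0 : Fin 4).rev = 3 := rfl
  have r1 : (1 : Fin 4).rev = 2 := rfl
  have r2 : (2 : Fin 4).rev = 1 := rfl
  have r3 : (3 : Fin 4).rev = 0 := rfl
  rw [r0, r1, r2, r3]
  rw [F3_zero_left, F3_zero_left]
  have c1 : F3 N 3 2 2 = F3 N 2 2 3 := by rw [F3_comm12, F3_comm23]
  have c2 : F3 N 1 2 1 = F3 N 1 1 2 := F3_comm23 _ _ _ _
  have c3 : F3 N 3 1 2 = F3 N 1 2 3 := by rw [F3_comm12, F3_comm23]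
  have c4 : F3 N 2 1 2 = F3 N 1 2 2 := F3_comm12 _ _ _ _
  rw [c1, c2, c3, c4, a1, a2, b1, b2, b3, b4, b5, b7, b8]
  simp [w1]
  ring

lemma PP_1123 (N : ℕ → ℕ → ℚ) : PP N 1 1 2 3 - PP N 1 2 1 3 = w2 (potential N) := by
  obtain ⟨a1, a2, a3, a4, a5, a6, b1, b2, b3, b4, b5, b6, b7, b8, b9, b10⟩ := val_lemmas N
  unfold PP
  rw [Fin.sum_univ_four, Fin.sum_univ_four]
  have r0 : (0 : Fin 4).rev = 3 := rfl
  have r1 : (1 : Fin 4).rev = 2 := rfl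
  have r2 : (2 : Fin 4).rev = 1 := rfl
  have r3 : (3 : Fin 4).rev = 0 := rfl
  rw [r0, r1, r2, r3]
  rw [F3_zero_left, F3_zero_left]
  have c1 : F3 N 3 2 3 = F3 N 2 3 3 := F3_comm12 _ _ _ _
  have c2 : F3 N 1 2 1 = F3 N 1 1 2 := F3_comm23 _ _ _ _
  have c3 : F3 N 3 1 3 = F3 N 1 3 3 := F3_comm12 _ _ _ _
  have c4 : F3 N 2 1 3 = F3 N 1 2 3 := F3_comm12 _ _ _ _
  rw [c1, c2, c3, c4, a1, a2, b1, b2, b3, b4, b5, b6, b8]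
  simp [w2]
  ring

lemma PP_2213 (N : ℕ → ℕ → ℚ) : PP N 2 1 2 3 - PP N 2 2 1 3 = w3 (potential N) := by
  obtain ⟨a1, a2, a3, a4, a5, a6, b1, b2, b3, b4, b5, b6, b7, b8, b9, b10⟩ := val_lemmas N
  unfold PP
  rw [Fin.sum_univ_four, Fin.sum_univ_four]
  have r0 : (0 : Fin 4).rev = 3 := rfl
  have r1 : (1 : Fin 4).rev = 2 := rfl
  have r2 : (2 : Fin 4).rev = 1 := rfl
  have r3 : (3 : Fin 4).rev = 0 := rfl
  rw [r0, r1, r2, r3]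
  rw [F3_zero_left, F3_zero_left]
  have c1 : F3 N 3 2 3 = F3 N 2 3 3 := F3_comm12 _ _ _ _
  have c2 : F3 N 2 2 1 = F3 N 1 2 2 := by rw [F3_comm23, F3_comm12]
  have c3 : F3 N 3 1 3 = F3 N 1 3 3 := F3_comm12 _ _ _ _
  have c4 : F3 N 2 1 3 = F3 N 1 2 3 := F3_comm12 _ _ _ _
  have c5 : F3 N 2 1 0 = F3 N 1 2 0 := F3_comm12 _ _ _ _
  have c6 : F3 N 2 1 1 = F3 N 1 1 2 := by rw [F3_comm12, F3_comm23]
  have c7 : F3 N 2 1 2 = F3 N 1 2 2 := F3_comm12 _ _ _ _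
  rw [c1, c2, c3, c4, c5, c6, c7, a2, a4, b2, b3, b4, b5, b7, b8, b9]
  simp [w3]
  ring

lemma PP_1133 (N : ℕ → ℕ → ℚ) : PP N 1 1 3 3 - PP N 1 3 1 3 = w4 (potential N) := by
  obtain ⟨a1, a2, a3, a4, a5, a6, b1, b2, b3, b4, b5, b6, b7, b8, b9, b10⟩ := val_lemmas N
  unfold PP
  rw [Fin.sum_univ_four, Fin.sum_univ_four]
  have r0 : (0 : Fin 4).rev = 3 := rfl
  have r1 : (1 : Fin 4).rev = 2 := rfl
  have r2 : (2 : Fin 4).rev = 1 := rfl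
  have r3 : (3 : Fin 4).rev = 0 := rfl
  rw [r0, r1, r2, r3]
  rw [F3_zero_left, F3_zero_left]
  have c2 : F3 N 1 3 1 = F3 N 1 1 3 := F3_comm23 _ _ _ _
  have c3 : F3 N 3 1 3 = F3 N 1 3 3 := F3_comm12 _ _ _ _
  have c4 : F3 N 2 1 3 = F3 N 1 2 3 := F3_comm12 _ _ _ _
  have c5 : F3 N 1 3 2 = F3 N 1 2 3 := F3_comm23 _ _ _ _
  rw [c2, c3, c4, c5, a1, a3, b1, b2, b3, b5, b6, b9, b10]
  simp [w4]
  ring

lemma PP_1233 (N : ℕ → ℕ → ℚ) : PP N 2 1 3 3 - PP N 2 3 1 3 = w5 (potential N) := by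
  obtain ⟨a1, a2, a3, a4, a5, a6, b1, b2, b3, b4, b5, b6, b7, b8, b9, b10⟩ := val_lemmas N
  unfold PP
  rw [Fin.sum_univ_four, Fin.sum_univ_four]
  have r0 : (0 : Fin 4).rev = 3 := rfl
  have r1 : (1 : Fin 4).rev = 2 := rfl
  have r2 : (2 : Fin 4).rev = 1 := rfl
  have r3 : (3 : Fin 4).rev = 0 := rfl
  rw [r0, r1, r2, r3]
  rw [F3_zero_left, F3_zero_left]
  have c1 : F3 N 2 3 1 = F3 N 1 2 3 := by rw [F3_comm23, F3_comm12]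
  have c2 : F3 N 2 3 2 = F3 N 2 2 3 := F3_comm23 _ _ _ _
  have c3 : F3 N 3 1 3 = F3 N 1 3 3 := F3_comm12 _ _ _ _
  have c4 : F3 N 2 1 3 = F3 N 1 2 3 := F3_comm12 _ _ _ _
  have c5 : F3 N 2 1 0 = F3 N 1 2 0 := F3_comm12 _ _ _ _
  have c6 : F3 N 2 1 1 = F3 N 1 1 2 := by rw [F3_comm12, F3_comm23]
  have c7 : F3 N 2 1 2 = F3 N 1 2 2 := F3_comm12 _ _ _ _
  rw [c1, c2, c3, c4, c5, c6, c7, a2, a5, b2, b3, b4, b5, b6, b8, b9, b10]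
  simp [w5]
  ring

lemma PP_2233 (N : ℕ → ℕ → ℚ) : PP N 2 2 3 3 - PP N 2 3 2 3 = w6 (potential N) := by
  obtain ⟨a1, a2, a3, a4, a5, a6, b1, b2, b3, b4, b5, b6, b7, b8, b9, b10⟩ := val_lemmas N
  unfold PP
  rw [Fin.sum_univ_four, Fin.sum_univ_four]
  have r0 : (0 : Fin 4).rev = 3 := rfl
  have r1 : (1 : Fin 4).rev = 2 := rfl
  have r2 : (2 : Fin 4).rev = 1 := rfl
  have r3 : (3 : Fin 4).rev = 0 := rfl
  rw [r0, r1, r2, r3]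
  rw [F3_zero_left, F3_zero_left]
  have c1 : F3 N 2 3 1 = F3 N 1 2 3 := by rw [F3_comm23, F3_comm12]
  have c2 : F3 N 2 3 2 = F3 N 2 2 3 := F3_comm23 _ _ _ _
  have c3 : F3 N 3 2 3 = F3 N 2 3 3 := F3_comm12 _ _ _ _
  have c4 : F3 N 2 2 1 = F3 N 1 2 2 := by rw [F3_comm23, F3_comm12]
  rw [c1, c2, c3, c4, a4, a5, b4, b5, b6, b7, b8, b9, b10]
  simp [w6]
  ring

end Pool.Agent.MP_4d4b4c_ag
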